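import Mathlib

/-!
# The angle between the fixed spaces of two subgroups of a finite group, by counting
-/

set_option autoImplicit false
set_option linter.unusedSectionVars false

namespace Pool.Agent.K4H22.T

open Finset
open scoped InnerProductSpace

variable {H : Type*} [NormedAddCommGroup H] [InnerProductSpace ℂ H] [CompleteSpace H]

theorem rep_mul {K : Type*} [Group K] (ρ : K →* unitary (H →L[ℂ] H)) (g h : K) (v : H) :
    (ρ (g * h) : H →L[ℂ] H) v = (ρ g : H →L[ℂ] H) ((ρ h : H →L[ℂ] H) v) := by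
  rw [map_mul]
  rfl

theorem rep_one {K : Type*} [Group K] (ρ : K →* unitary (H →L[ℂ] H)) (v : H) :
    (ρ 1 : H →L[ℂ] H) v = v := by
  rw [map_one]
  rfl

theorem rep_inner {K : Type*} [Group K] (ρ : K →* unitary (H →L[ℂ] H)) (g : K) (v w : H) :
    ⟪(ρ g : H →L[ℂ] H) v, (ρ g : H →L[ℂ] H) w⟫_ℂ = ⟪v, w⟫_ℂ := by
  rw [← ContinuousLinearMap.adjoint_inner_right]
  have h1 : (ContinuousLinearMap.adjoint (ρ g : H →L[ℂ] H)) ((ρ g : H →L[ℂ] H) w) = w := by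
    have h2 : star (ρ g : H →L[ℂ] H) * (ρ g : H →L[ℂ] H) = 1 := (ρ g).2.1
    have h3 := congrArg (fun T : H →L[ℂ] H => T w) h2
    exact h3
  rw [h1]

theorem rep_norm {K : Type*} [Group K] (ρ : K →* unitary (H →L[ℂ] H)) (g : K) (v : H) :
    ‖(ρ g : H →L[ℂ] H) v‖ = ‖v‖ := by
  have h := rep_inner ρ g v v
  rw [inner_self_eq_norm_sq_to_K, inner_self_eq_norm_sq_to_K] at h
  have h2 : ‖(ρ g : H →L[ℂ] H) v‖ ^ 2 = ‖v‖ ^ 2 := by exact_mod_cast h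
  exact (sq_eq_sq₀ (norm_nonneg _) (norm_nonneg _)).1 h2

/-- the vectors fixed by all the elements of a set -/
def fixedBy {K : Type*} [Group K] (ρ : K →* unitary (H →L[ℂ] H)) (S : Set K) :
    Submodule ℂ H where
  carrier := {v | ∀ g ∈ S, (ρ g : H →L[ℂ] H) v = v}
  add_mem' := fun ha hb g hg => by rw [map_add, ha g hg, hb g hg]
  zero_mem' := fun g _ => map_zero _
  smul_mem' := fun c v hv g hg => by rw [map_smul, hv g hg]

theorem mem_fixedBy {K : Type*} [Group K] {ρ : K →* unitary (H →L[ℂ] H)} {S : Set K} {v : H} :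
    v ∈ fixedBy ρ S ↔ ∀ g ∈ S, (ρ g : H →L[ℂ] H) v = v := Iff.rfl

theorem isClosed_fixedBy {K : Type*} [Group K] (ρ : K →* unitary (H →L[ℂ] H)) (S : Set K) :
    IsClosed (fixedBy ρ S : Set H) := by
  have : (fixedBy ρ S : Set H) = ⋂ g ∈ S, {v | (ρ g : H →L[ℂ] H) v = v} := by
    ext v
    simp [mem_fixedBy]
  rw [this]
  refine isClosed_biInter fun g _ => ?_
  exact isClosed_eq (ρ g : H →L[ℂ] H).continuous continuous_id

instance {K : Type*} [Group K] (ρ : K →* unitary (H →L[ℂ] H)) (S : Set K) :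
    (fixedBy ρ S).HasOrthogonalProjection :=
  haveI : CompleteSpace (fixedBy ρ S) := (isClosed_fixedBy ρ S).completeSpace_coe
  inferInstance

section angle

variable {K E M : Type*} [Group K] [Fintype K] [MulAction K E] [Fintype E] [Group M] [Fintype M]
  [MulAction M E]

open Classical in
/-- **The angle lemma.** `K` is a finite group acting on the finite set `E` with an invariant
relation `O`; `x₁, x₃` are elements of `E`; `M` is a group of scalars. -/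
theorem angle (ρ : K →* unitary (H →L[ℂ] H)) (O : E → E → Prop)
    (hO : ∀ (k : K) (x y : E), O (k • x) (k • y) ↔ O x y) (x₁ x₃ : E) (H₁ H₂ : Subgroup K)
    (A B : ℕ) (hAB : B ≤ A)
    (hcount : ∀ k : K, (univ.filter fun y => O y x₁ ∧ O y (k • x₁)).card =
      if k ∈ H₂ then A else B)
    (hdec : ∀ k : K, O x₃ (k • x₁) → ∃ h₁ ∈ H₁, ∃ h₂ ∈ H₂, k = h₁ * h₂)
    (hM : ∀ (μ : M) (x y : E), O (μ • x) y ↔ O x y)
    (hM1 : ∀ (μ μ' : M) (g g' : K), μ • g • x₃ = μ' • g' • x₃ → g⁻¹ * g' ∈ H₁)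
    (hM2 : ∀ (μ μ' : M) (g : K), μ • g • x₃ = μ' • g • x₃ → μ = μ')
    (v₁ v₂ : H) (hv₁ : ∀ h ∈ H₁, (ρ h : H →L[ℂ] H) v₁ = v₁)
    (hv₂ : ∀ h ∈ H₂, (ρ h : H →L[ℂ] H) v₂ = v₂)
    (hv : ∀ w : H, (∀ g : K, (ρ g : H →L[ℂ] H) w = w) → ⟪v₂, w⟫_ℂ = 0) :
    (Fintype.card M : ℝ) * (((univ.filter fun k : K => O x₃ (k • x₁)).card : ℝ) *
      ‖⟪v₁, v₂⟫_ℂ‖) ^ 2 ≤ (Nat.card H₁ : ℝ) * (Nat.card H₂ : ℝ) * ((A - B : ℕ) : ℝ) *
        ‖v₁‖ ^ 2 * ‖v₂‖ ^ 2 := by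
  let r : K → H → H := fun g v => (ρ g : H →L[ℂ] H) v
  let φ : E → H := fun y => ∑ h : K, if O y (h • x₁) then r h v₂ else 0
  -- the sum over the group
  have hsum0 : ∑ h : K, r h v₂ = 0 := by
    set w := ∑ h : K, r h v₂ with hw
    have hinv : ∀ g : K, r g w = w := by
      intro g
      simp only [r, hw]
      rw [map_sum]
      rw [← Equiv.sum_comp (Equiv.mulLeft g) (fun h => (ρ h : H →L[ℂ] H) v₂)]
      refine Finset.sum_congr rfl fun h _ => ?_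
      rw [Equiv.coe_mulLeft, rep_mul]
    have h1 : ⟪w, w⟫_ℂ = 0 := by
      conv_lhs => rw [hw]
      rw [sum_inner]
      refine Finset.sum_eq_zero fun h _ => ?_
      have h2 : ⟪r h v₂, w⟫_ℂ = ⟪r h v₂, r h w⟫_ℂ := by rw [hinv h]
      rw [h2]
      simp only [r]
      rw [rep_inner]
      exact hv w hinv
    exact inner_self_eq_zero.1 h1
  -- first step
  have hcount' : ∀ h h' : K, (univ.filter fun y => O y (h • x₁) ∧ O y (h' • x₁)).card =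
      if h⁻¹ * h' ∈ H₂ then A else B := by
    intro h h'
    rw [← hcount (h⁻¹ * h')]
    refine (Finset.card_bij (fun z _ => h • z) ?_ ?_ ?_).symm
    · intro z hz
      rw [mem_filter] at hz ⊢
      refine ⟨mem_univ _, (hO h z x₁).2 hz.2.1, ?_⟩
      have := (hO h z ((h⁻¹ * h') • x₁)).2 hz.2.2
      rwa [← mul_smul, mul_inv_cancel_left] at this
    · intro a _ b _ hab
      exact MulAction.injective h hab
    · intro y hy
      rw [mem_filter] at hy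
      refine ⟨h⁻¹ • y, ?_, smul_inv_smul _ _⟩
      rw [mem_filter]
      refine ⟨mem_univ _, ?_, ?_⟩
      · rw [← hO h, smul_inv_smul]
        exact hy.2.1
      · rw [← hO h, smul_inv_smul, ← mul_smul, mul_inv_cancel_left]
        exact hy.2.2
  have step1 : ∑ y : E, ‖φ y‖ ^ 2 =
      ((A - B : ℕ) : ℝ) * Fintype.card K * Nat.card H₂ * ‖v₂‖ ^ 2 := by
    have e1 : ∀ y, ⟪φ y, φ y⟫_ℂ = ∑ h : K, ∑ h' : K,
        (if O y (h • x₁) ∧ O y (h' • x₁) then ⟪r h v₂, r h' v₂⟫_ℂ else 0) := by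
      intro y
      simp only [φ]
      rw [sum_inner]
      refine Finset.sum_congr rfl fun h _ => ?_
      rw [inner_sum]
      refine Finset.sum_congr rfl fun h' _ => ?_
      by_cases h1 : O y (h • x₁) <;> by_cases h2 : O y (h' • x₁) <;> simp [h1, h2]
    have e2 : ∑ y : E, ⟪φ y, φ y⟫_ℂ = ∑ h : K, ∑ h' : K,
        (if h⁻¹ * h' ∈ H₂ then (A : ℂ) else (B : ℂ)) * ⟪r h v₂, r h' v₂⟫_ℂ := by
      rw [Finset.sum_congr rfl fun y _ => e1 y, Finset.sum_comm]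
      refine Finset.sum_congr rfl fun h _ => ?_
      rw [Finset.sum_comm]
      refine Finset.sum_congr rfl fun h' _ => ?_
      rw [← Finset.sum_filter, Finset.sum_const, hcount' h h', nsmul_eq_mul]
      split_ifs <;> rfl
    have e3 : ∑ h : K, ∑ h' : K,
        (if h⁻¹ * h' ∈ H₂ then (A : ℂ) else (B : ℂ)) * ⟪r h v₂, r h' v₂⟫_ℂ =
        (B : ℂ) * ⟪∑ h : K, r h v₂, ∑ h : K, r h v₂⟫_ℂ + ((A : ℂ) - B) * ∑ h : K, ∑ h' : K,
          (if h⁻¹ * h' ∈ H₂ then ⟪r h v₂, r h' v₂⟫_ℂ else 0) := by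
      rw [sum_inner, Finset.mul_sum, Finset.mul_sum, ← Finset.sum_add_distrib]
      refine Finset.sum_congr rfl fun h _ => ?_
      rw [inner_sum, Finset.mul_sum, Finset.mul_sum, ← Finset.sum_add_distrib]
      refine Finset.sum_congr rfl fun h' _ => ?_
      split_ifs <;> ring
    have e4 : ∀ h : K, ∑ h' : K, (if h⁻¹ * h' ∈ H₂ then ⟪r h v₂, r h' v₂⟫_ℂ else 0) =
        (Nat.card H₂ : ℂ) * (‖v₂‖ ^ 2 : ℝ) := by
      intro h
      rw [← Equiv.sum_comp (Equiv.mulLeft h)]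
      have e5 : ∀ k : K, (if h⁻¹ * (Equiv.mulLeft h) k ∈ H₂ then
          ⟪r h v₂, r ((Equiv.mulLeft h) k) v₂⟫_ℂ else 0) =
          (if k ∈ H₂ then ((‖v₂‖ ^ 2 : ℝ) : ℂ) else 0) := by
        intro k
        rw [Equiv.coe_mulLeft, inv_mul_cancel_left]
        split_ifs with hk
        · simp only [r]
          rw [rep_mul, hv₂ k hk, rep_inner, inner_self_eq_norm_sq_to_K]
          push_cast
          rfl
        · rfl
      rw [Finset.sum_congr rfl fun k _ => e5 k, ← Finset.sum_filter, Finset.sum_const,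
        nsmul_eq_mul]
      congr 2
      rw [Nat.card_eq_fintype_card, Fintype.card_subtype]
    have e6 : ((∑ y : E, ‖φ y‖ ^ 2 : ℝ) : ℂ) = ∑ y : E, ⟪φ y, φ y⟫_ℂ := by
      push_cast
      refine Finset.sum_congr rfl fun y _ => ?_
      rw [inner_self_eq_norm_sq_to_K]
      rfl
    have e7 : ((∑ y : E, ‖φ y‖ ^ 2 : ℝ) : ℂ) =
        ((((A - B : ℕ) : ℝ) * Fintype.card K * Nat.card H₂ * ‖v₂‖ ^ 2 : ℝ) : ℂ) := by
      rw [e6, e2, e3, hsum0, inner_zero_left, mul_zero, zero_add,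
        Finset.sum_congr rfl fun h _ => e4 h, Finset.sum_const, Finset.card_univ, nsmul_eq_mul,
        Nat.cast_sub hAB]
      push_cast
      ring
    exact_mod_cast e7
  -- second step
  have hφM : ∀ (μ : M) (y : E), φ (μ • y) = φ y := by
    intro μ y
    simp only [φ]
    refine Finset.sum_congr rfl fun h _ => ?_
    simp only [hM]
  have step2 : (Fintype.card M : ℝ) * ∑ g : K, ‖φ (g • x₃)‖ ^ 2 ≤
      (Nat.card H₁ : ℝ) * ∑ y : E, ‖φ y‖ ^ 2 := by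
    have f1 : (Fintype.card M : ℝ) * ∑ g : K, ‖φ (g • x₃)‖ ^ 2 =
        ∑ p : K × M, ‖φ (p.2 • p.1 • x₃)‖ ^ 2 := by
      rw [Fintype.sum_prod_type, Finset.mul_sum]
      refine Finset.sum_congr rfl fun g _ => ?_
      simp only [hφM]
      rw [Finset.sum_const, Finset.card_univ, nsmul_eq_mul]
    have f2 : ∑ p : K × M, ‖φ (p.2 • p.1 • x₃)‖ ^ 2 =
        ∑ y : E, ((univ.filter fun p : K × M => p.2 • p.1 • x₃ = y).card : ℝ) * ‖φ y‖ ^ 2 := by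
      rw [← Finset.sum_fiberwise_of_maps_to (s := univ) (t := univ)
        (g := fun p : K × M => p.2 • p.1 • x₃) (fun _ _ => mem_univ _)]
      refine Finset.sum_congr rfl fun y _ => ?_
      rw [← nsmul_eq_mul, ← Finset.sum_const]
      refine Finset.sum_congr rfl fun p hp => ?_
      rw [mem_filter] at hp
      rw [hp.2]
    rw [f1, f2, Finset.mul_sum]
    refine Finset.sum_le_sum fun y _ => ?_
    refine mul_le_mul_of_nonneg_right ?_ (by positivity)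
    rw [Nat.cast_le]
    rcases (univ.filter fun p : K × M => p.2 • p.1 • x₃ = y).eq_empty_or_nonempty with h0 | h0
    · rw [h0, Finset.card_empty]
      exact Nat.zero_le _
    · obtain ⟨⟨g₀, μ₀⟩, hp₀⟩ := h0
      rw [mem_filter] at hp₀
      rw [Nat.card_eq_fintype_card, ← Finset.card_univ]
      refine Finset.card_le_card_of_injOn
        (fun p => if h : g₀⁻¹ * p.1 ∈ H₁ then (⟨g₀⁻¹ * p.1, h⟩ : H₁) else 1)
        (fun _ _ => mem_univ _) ?_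
      rintro ⟨g, μ⟩ hp ⟨g', μ'⟩ hp' heq
      rw [mem_coe, mem_filter] at hp hp'
      have i1 : g₀⁻¹ * g ∈ H₁ := hM1 μ₀ μ g₀ g (hp₀.2.trans hp.2.symm)
      have i2 : g₀⁻¹ * g' ∈ H₁ := hM1 μ₀ μ' g₀ g' (hp₀.2.trans hp'.2.symm)
      simp only [dif_pos i1, dif_pos i2, Subtype.mk.injEq, mul_right_inj] at heq
      subst heq
      have i3 : μ = μ' := hM2 μ μ' g (hp.2.trans hp'.2.symm)
      rw [i3]
  -- third step
  set N := (univ.filter fun k : K => O x₃ (k • x₁)).card with hN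
  have step3 : ∑ g : K, ⟪r g v₁, φ (g • x₃)⟫_ℂ = (Fintype.card K : ℂ) * (N : ℂ) * ⟪v₁, v₂⟫_ℂ := by
    have g1 : ∀ g : K, ⟪r g v₁, φ (g • x₃)⟫_ℂ = (N : ℂ) * ⟪v₁, v₂⟫_ℂ := by
      intro g
      simp only [φ]
      rw [inner_sum, ← Equiv.sum_comp (Equiv.mulLeft g)]
      have g2 : ∀ k : K, ⟪r g v₁, if O (g • x₃) ((Equiv.mulLeft g) k • x₁) then
          r ((Equiv.mulLeft g) k) v₂ else 0⟫_ℂ = if O x₃ (k • x₁) then ⟪v₁, v₂⟫_ℂ else 0 := by
        intro k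
        rw [Equiv.coe_mulLeft, mul_smul, hO]
        split_ifs with hk
        · obtain ⟨h₁, hh₁, h₂, hh₂, rfl⟩ := hdec k hk
          simp only [r]
          rw [rep_mul, rep_inner, rep_mul, hv₂ h₂ hh₂]
          conv_lhs => rw [← hv₁ h₁ hh₁]
          rw [rep_inner]
        · exact inner_zero_right _
      rw [Finset.sum_congr rfl fun k _ => g2 k, ← Finset.sum_filter, Finset.sum_const,
        nsmul_eq_mul]
    rw [Finset.sum_congr rfl fun g _ => g1 g, Finset.sum_const, Finset.card_univ, nsmul_eq_mul,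
      mul_assoc]
  -- fourth step
  have step4 : ((Fintype.card K : ℝ) * (N : ℝ) * ‖⟪v₁, v₂⟫_ℂ‖) ^ 2 ≤
      Fintype.card K * ‖v₁‖ ^ 2 * ∑ g : K, ‖φ (g • x₃)‖ ^ 2 := by
    have k1 : (Fintype.card K : ℝ) * (N : ℝ) * ‖⟪v₁, v₂⟫_ℂ‖ ≤
        ∑ g : K, ‖v₁‖ * ‖φ (g • x₃)‖ := by
      have k2 : ‖(Fintype.card K : ℂ) * (N : ℂ) * ⟪v₁, v₂⟫_ℂ‖ =
          (Fintype.card K : ℝ) * (N : ℝ) * ‖⟪v₁, v₂⟫_ℂ‖ := by
        rw [norm_mul, norm_mul, Complex.norm_natCast, Complex.norm_natCast]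
      rw [← k2, ← step3]
      refine (norm_sum_le _ _).trans (Finset.sum_le_sum fun g _ => ?_)
      refine (norm_inner_le_norm _ _).trans ?_
      simp only [r]
      rw [rep_norm]
    have k3 : (∑ g : K, ‖v₁‖ * ‖φ (g • x₃)‖) ^ 2 ≤
        (univ : Finset K).card * ∑ g : K, (‖v₁‖ * ‖φ (g • x₃)‖) ^ 2 :=
      sq_sum_le_card_mul_sum_sq
    have k4 : ∑ g : K, (‖v₁‖ * ‖φ (g • x₃)‖) ^ 2 = ‖v₁‖ ^ 2 * ∑ g : K, ‖φ (g • x₃)‖ ^ 2 := by
      rw [Finset.mul_sum]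
      refine Finset.sum_congr rfl fun g _ => ?_
      ring
    rw [k4, Finset.card_univ] at k3
    have k5 : 0 ≤ (Fintype.card K : ℝ) * (N : ℝ) * ‖⟪v₁, v₂⟫_ℂ‖ := by positivity
    calc ((Fintype.card K : ℝ) * (N : ℝ) * ‖⟪v₁, v₂⟫_ℂ‖) ^ 2 ≤
        (∑ g : K, ‖v₁‖ * ‖φ (g • x₃)‖) ^ 2 := by gcongr
      _ ≤ Fintype.card K * (‖v₁‖ ^ 2 * ∑ g : K, ‖φ (g • x₃)‖ ^ 2) := k3
      _ = Fintype.card K * ‖v₁‖ ^ 2 * ∑ g : K, ‖φ (g • x₃)‖ ^ 2 := by ring
  have hK : (0 : ℝ) < Fintype.card K := by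
    rw [Nat.cast_pos]
    exact Fintype.card_pos
  -- the end
  have fin : (Fintype.card K : ℝ) ^ 2 * ((Fintype.card M : ℝ) * ((N : ℝ) * ‖⟪v₁, v₂⟫_ℂ‖) ^ 2) ≤
      (Fintype.card K : ℝ) ^ 2 * ((Nat.card H₁ : ℝ) * (Nat.card H₂ : ℝ) * ((A - B : ℕ) : ℝ) *
        ‖v₁‖ ^ 2 * ‖v₂‖ ^ 2) := by
    calc (Fintype.card K : ℝ) ^ 2 * ((Fintype.card M : ℝ) * ((N : ℝ) * ‖⟪v₁, v₂⟫_ℂ‖) ^ 2) =
        (Fintype.card M : ℝ) * ((Fintype.card K : ℝ) * (N : ℝ) * ‖⟪v₁, v₂⟫_ℂ‖) ^ 2 := by ring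
      _ ≤ (Fintype.card M : ℝ) * (Fintype.card K * ‖v₁‖ ^ 2 * ∑ g : K, ‖φ (g • x₃)‖ ^ 2) := by
          gcongr
      _ = Fintype.card K * ‖v₁‖ ^ 2 *
          ((Fintype.card M : ℝ) * ∑ g : K, ‖φ (g • x₃)‖ ^ 2) := by ring
      _ ≤ Fintype.card K * ‖v₁‖ ^ 2 * ((Nat.card H₁ : ℝ) * ∑ y : E, ‖φ y‖ ^ 2) := by
          gcongr
      _ = (Fintype.card K : ℝ) ^ 2 * ((Nat.card H₁ : ℝ) * (Nat.card H₂ : ℝ) * ((A - B : ℕ) : ℝ) *
        ‖v₁‖ ^ 2 * ‖v₂‖ ^ 2) := by rw [step1]; ring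
  exact le_of_mul_le_mul_left fin (by positivity)

end angle

end Pool.Agent.K4H22.T
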