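import Mathlib

/-!
# The finite fields with `25 ^ (2 n + 1)` elements and their involutions
-/

set_option autoImplicit false
set_option linter.unusedSectionVars false

namespace Pool.Agent.K4H22.T

instance fact5 : Fact (Nat.Prime 5) := ⟨by norm_num⟩

/-- the field with `25 ^ (2 n + 1)` elements -/
abbrev F (n : ℕ) : Type := GaloisField 5 (2 * (2 * n + 1))

/-- `5 ^ (2 n + 1)` -/
def Q (n : ℕ) : ℕ := 5 ^ (2 * n + 1)

noncomputable instance (n : ℕ) : Fintype (F n) := Fintype.ofFinite _

theorem Q_pos (n : ℕ) : 0 < Q n := by unfold Q; positivity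

theorem five_le_Q (n : ℕ) : 5 ≤ Q n := by
  unfold Q
  calc 5 = 5 ^ 1 := by norm_num
    _ ≤ 5 ^ (2 * n + 1) := Nat.pow_le_pow_right (by norm_num) (by omega)

theorem natCard_F (n : ℕ) : Nat.card (F n) = Q n ^ 2 := by
  rw [GaloisField.card 5 _ (by omega), Q, ← pow_mul, mul_comm]

theorem card_F (n : ℕ) : Fintype.card (F n) = Q n ^ 2 := by
  rw [← Nat.card_eq_fintype_card, natCard_F]

theorem pow_Q_Q {n : ℕ} (x : F n) : (x ^ Q n) ^ Q n = x := by
  rw [← pow_mul, ← pow_two, ← card_F, FiniteField.pow_card]

theorem add_pow_Q {n : ℕ} (x y : F n) : (x + y) ^ Q n = x ^ Q n + y ^ Q n :=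
  add_pow_char_pow x y 5 (2 * n + 1)

/-- the involution `x ↦ x ^ Q` -/
noncomputable instance (n : ℕ) : StarRing (F n) where
  star x := x ^ Q n
  star_involutive x := pow_Q_Q x
  star_mul x y := by
    change (x * y) ^ Q n = y ^ Q n * x ^ Q n
    rw [mul_pow, mul_comm]
  star_add x y := add_pow_Q x y

theorem star_def {n : ℕ} (x : F n) : star x = x ^ Q n := rfl

/-- the norm is surjective -/
theorem norm_surj {n : ℕ} (c : F n) (hc : star c = c) : ∃ x : F n, x * star x = c := by
  by_cases h0 : c = 0
  · exact ⟨0, by rw [h0, zero_mul]⟩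
  obtain ⟨g, hg⟩ := IsCyclic.exists_generator (α := (F n)ˣ)
  obtain ⟨u, rfl⟩ : ∃ u : (F n)ˣ, (u : F n) = c := ⟨Units.mk0 c h0, rfl⟩
  obtain ⟨i, hi⟩ : ∃ i : ℕ, g ^ i = u := by
    have := hg u
    rwa [← mem_powers_iff_mem_zpowers, Submonoid.mem_powers_iff] at this
  have hord : orderOf g = Q n ^ 2 - 1 := by
    rw [orderOf_eq_card_of_forall_mem_zpowers hg, Nat.card_units, natCard_F]
  have h1 : u ^ (Q n - 1) = 1 := by
    have h2 : u ^ Q n = u := by
      ext
      push_cast
      exact hc
    have h3 : u ^ (Q n - 1) * u = u := by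
      rw [← pow_succ, Nat.sub_add_cancel (Q_pos n), h2]
    exact mul_eq_right.1 h3
  rw [← hi, ← pow_mul, ← orderOf_dvd_iff_pow_eq_one, hord] at h1
  have h5 := five_le_Q n
  have hfac : Q n ^ 2 - 1 = (Q n + 1) * (Q n - 1) := by
    obtain ⟨m, hm⟩ : ∃ m, Q n = m + 1 := ⟨Q n - 1, by omega⟩
    rw [hm]
    simp only [Nat.add_sub_cancel]
    have : (m + 1) ^ 2 = (m + 1 + 1) * m + 1 := by ring
    omega
  rw [hfac] at h1
  have h6 : (Q n + 1) ∣ i := Nat.dvd_of_mul_dvd_mul_right (by omega) h1
  obtain ⟨j, rfl⟩ := h6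
  refine ⟨(g ^ j : (F n)ˣ), ?_⟩
  rw [star_def, ← hi]
  push_cast
  rw [← pow_succ', ← pow_mul, mul_comm j]

/-- an element of norm one which generates the field -/
theorem exists_zeta (n : ℕ) : ∃ ζ : F n, ζ * star ζ = 1 ∧
    ∀ S : Subring (F n), ζ ∈ S → S = ⊤ := by
  obtain ⟨g, hg⟩ := IsCyclic.exists_generator (α := (F n)ˣ)
  have hord : orderOf g = Q n ^ 2 - 1 := by
    rw [orderOf_eq_card_of_forall_mem_zpowers hg, Nat.card_units, natCard_F]
  have h5 := five_le_Q n
  have hfac : Q n ^ 2 - 1 = (Q n - 1) * (Q n + 1) := by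
    obtain ⟨m, hm⟩ : ∃ m, Q n = m + 1 := ⟨Q n - 1, by omega⟩
    rw [hm]
    simp only [Nat.add_sub_cancel]
    have : (m + 1) ^ 2 = m * (m + 1 + 1) + 1 := by ring
    omega
  set z : (F n)ˣ := g ^ (Q n - 1) with hz
  have hzord : orderOf z = Q n + 1 := by
    rw [hz, orderOf_pow_of_dvd (by omega) (by rw [hord, hfac]; exact dvd_mul_right _ _), hord,
      hfac, Nat.mul_div_cancel_left _ (by omega)]
  refine ⟨(z : F n), ?_, ?_⟩
  · rw [star_def, ← pow_succ']
    have := pow_orderOf_eq_one z
    rw [hzord] at this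
    have h2 := congrArg Units.val this
    rw [Units.val_pow_eq_pow_val, Units.val_one] at h2
    exact h2
  · intro S hS
    -- the powers of `z` and zero are in `S`
    have hcardS : Q n + 2 ≤ Nat.card S := by
      have hinj : Function.Injective (fun i : Option (Fin (Q n + 1)) =>
          (match i with
          | none => (0 : S)
          | some i => ⟨(z : F n) ^ (i : ℕ), S.pow_mem hS _⟩ : S)) := by
        intro a b hab
        rcases a with _ | a <;> rcases b with _ | b
        · rfl
        · exfalso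
          have := congrArg Subtype.val hab
          simp only [ZeroMemClass.coe_zero] at this
          exact (pow_ne_zero _ z.ne_zero) this.symm
        · exfalso
          have := congrArg Subtype.val hab
          simp only [ZeroMemClass.coe_zero] at this
          exact (pow_ne_zero _ z.ne_zero) this
        · have := congrArg Subtype.val hab
          simp only at this
          have h2 : z ^ (a : ℕ) = z ^ (b : ℕ) := by
            ext
            push_cast
            exact this
          have h3 := pow_injOn_Iio_orderOf (x := z)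
            (by rw [Set.mem_Iio, hzord]; exact a.2) (by rw [Set.mem_Iio, hzord]; exact b.2) h2
          rw [Option.some_inj]
          exact Fin.ext h3
      have h1 := Nat.card_le_card_of_injective _ hinj
      rw [Nat.card_eq_fintype_card, Fintype.card_option, Fintype.card_fin] at h1
      exact h1
    by_contra hne
    obtain ⟨x, hx⟩ : ∃ x : F n, x ∉ S := by
      by_contra hcon
      push Not at hcon
      exact hne (eq_top_iff.2 fun x _ => hcon x)
    have hinv : ∀ s ∈ S, s ≠ 0 → s⁻¹ ∈ S := by
      intro s hs hs0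
      have h1 : s ^ (Q n ^ 2 - 1) = 1 := by
        rw [← card_F]
        exact FiniteField.pow_card_sub_one_eq_one s hs0
      have h2 : s⁻¹ = s ^ (Q n ^ 2 - 2) := by
        have h7 : 5 ^ 2 ≤ Q n ^ 2 := Nat.pow_le_pow_left h5 2
        have h8 : Q n ^ 2 - 1 = Q n ^ 2 - 2 + 1 := by omega
        rw [h8, pow_succ] at h1
        exact (eq_inv_of_mul_eq_one_left h1).symm
      rw [h2]
      exact S.pow_mem hs _
    have hinj2 : Function.Injective (fun p : S × S => (p.1 : F n) + p.2 * x) := by
      rintro ⟨a, b⟩ ⟨a', b'⟩ hab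
      simp only at hab
      by_cases hb : b = b'
      · subst hb
        rw [add_left_inj] at hab
        rw [Prod.mk.injEq]
        exact ⟨Subtype.ext hab, rfl⟩
      · exfalso
        apply hx
        have h1 : ((b : F n) - b') * x = a' - a := by linear_combination hab
        have h2 : (b : F n) - b' ≠ 0 := fun h => hb (Subtype.ext (sub_eq_zero.1 h))
        have h3 : x = ((b : F n) - b')⁻¹ * (a' - a) := by
          rw [← h1, inv_mul_cancel_left₀ h2]
        rw [h3]
        exact S.mul_mem (hinv _ (S.sub_mem b.2 b'.2) h2) (S.sub_mem a'.2 a.2)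
    have h1 := Nat.card_le_card_of_injective _ hinj2
    rw [Nat.card_prod, natCard_F] at h1
    have h3 : (Q n + 2) * (Q n + 2) ≤ Nat.card S * Nat.card S := Nat.mul_le_mul hcardS hcardS
    have h4 : (Q n + 2) * (Q n + 2) = Q n ^ 2 + 4 * Q n + 4 := by ring
    omega

/-- the small field embeds into the big ones, compatibly with the involutions -/
theorem exists_emb (n : ℕ) : ∃ j : F 0 →+* F n, ∀ x, j (star x) = star (j x) := by
  have h : Module.finrank (ZMod 5) (F 0) ∣ Module.finrank (ZMod 5) (F n) := by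
    rw [GaloisField.finrank 5 (by omega), GaloisField.finrank 5 (by omega)]
    exact ⟨2 * n + 1, by ring⟩
  obtain ⟨f⟩ := FiniteField.nonempty_algHom_of_finrank_dvd h
  refine ⟨f.toRingHom, fun x => ?_⟩
  rw [star_def, star_def, ← map_pow]
  congr 1
  have h25 : ∀ k : ℕ, x ^ (25 ^ k) = x := by
    intro k
    induction k with
    | zero => simp
    | succ k ih =>
      rw [pow_succ, pow_mul, ih]
      have h1 := FiniteField.pow_card x
      rw [card_F] at h1
      exact h1
  have : Q n = 25 ^ n * Q 0 := by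
    unfold Q
    rw [pow_succ, pow_mul]
    norm_num
  rw [this, pow_mul, h25]

end Pool.Agent.K4H22.T
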