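import Mathlib
import Pool.Agent.K4H22.T.Angle
import Pool.Agent.K4H22.T.Fld

/-!
# Three-dimensional special unitary groups and the angle for the field with 25 elements
-/

set_option autoImplicit false
set_option linter.unusedSectionVars false

namespace Pool.Agent.K4H22.T

open Matrix Finset
open scoped InnerProductSpace

section general

variable {F : Type*} [Field F] [StarRing F]

/-- the special unitary group of the form with Gram matrix `J` -/
def SUn (J : Matrix (Fin 3) (Fin 3) F) : Subgroup (GL (Fin 3) F) where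
  carrier := {g | (g : Matrix (Fin 3) (Fin 3) F)ᴴ * J * g = J ∧
    (g : Matrix (Fin 3) (Fin 3) F).det = 1}
  mul_mem' := by
    rintro a b ⟨ha, ha'⟩ ⟨hb, hb'⟩
    refine ⟨?_, ?_⟩
    · rw [Units.val_mul, conjTranspose_mul]
      calc (b : Matrix (Fin 3) (Fin 3) F)ᴴ * (a : Matrix (Fin 3) (Fin 3) F)ᴴ * J *
            ((a : Matrix (Fin 3) (Fin 3) F) * (b : Matrix (Fin 3) (Fin 3) F)) =
          (b : Matrix (Fin 3) (Fin 3) F)ᴴ * ((a : Matrix (Fin 3) (Fin 3) F)ᴴ * J *
            (a : Matrix (Fin 3) (Fin 3) F)) * (b : Matrix (Fin 3) (Fin 3) F) := by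
            simp only [Matrix.mul_assoc]
        _ = J := by rw [ha, hb]
    · rw [Units.val_mul, det_mul, ha', hb', one_mul]
  one_mem' := by
    refine ⟨?_, ?_⟩
    · rw [Units.val_one, conjTranspose_one, Matrix.one_mul, Matrix.mul_one]
    · rw [Units.val_one, det_one]
  inv_mem' := by
    rintro a ⟨ha, ha'⟩
    have h1 : (a : Matrix (Fin 3) (Fin 3) F) * (a⁻¹ : GL (Fin 3) F) = 1 := a.mul_inv
    refine ⟨?_, ?_⟩
    · have h2 : ((a⁻¹ : GL (Fin 3) F) : Matrix (Fin 3) (Fin 3) F)ᴴ *
          (a : Matrix (Fin 3) (Fin 3) F)ᴴ = 1 := by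
        rw [← conjTranspose_mul, h1, conjTranspose_one]
      calc ((a⁻¹ : GL (Fin 3) F) : Matrix (Fin 3) (Fin 3) F)ᴴ * J *
            ((a⁻¹ : GL (Fin 3) F) : Matrix (Fin 3) (Fin 3) F) =
          ((a⁻¹ : GL (Fin 3) F) : Matrix (Fin 3) (Fin 3) F)ᴴ *
            ((a : Matrix (Fin 3) (Fin 3) F)ᴴ * J * (a : Matrix (Fin 3) (Fin 3) F)) *
            ((a⁻¹ : GL (Fin 3) F) : Matrix (Fin 3) (Fin 3) F) := by rw [ha]
        _ = (((a⁻¹ : GL (Fin 3) F) : Matrix (Fin 3) (Fin 3) F)ᴴ *
              (a : Matrix (Fin 3) (Fin 3) F)ᴴ) * J * ((a : Matrix (Fin 3) (Fin 3) F) *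
            ((a⁻¹ : GL (Fin 3) F) : Matrix (Fin 3) (Fin 3) F)) := by
            simp only [Matrix.mul_assoc]
        _ = J := by rw [h1, h2, Matrix.one_mul, Matrix.mul_one]
    · have h3 := congrArg Matrix.det h1
      rw [det_mul, det_one, ha', one_mul] at h3
      exact h3

theorem mem_SUn {J : Matrix (Fin 3) (Fin 3) F} {g : GL (Fin 3) F} :
    g ∈ SUn J ↔ (g : Matrix (Fin 3) (Fin 3) F)ᴴ * J * g = J ∧
      (g : Matrix (Fin 3) (Fin 3) F).det = 1 := Iff.rfl

/-- column vectors -/
def V3 (F : Type*) : Type _ := Fin 3 → F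

@[ext] theorem V3.ext {F : Type*} {x y : V3 F} (h : ∀ i : Fin 3, x i = y i) : x = y := funext h

instance : AddCommGroup (V3 F) := inferInstanceAs (AddCommGroup (Fin 3 → F))

instance : Module F (V3 F) := inferInstanceAs (Module F (Fin 3 → F))

instance : MulAction Fˣ (V3 F) := inferInstanceAs (MulAction Fˣ (Fin 3 → F))

instance [Fintype F] : Fintype (V3 F) := by
  classical
  exact inferInstanceAs (Fintype (Fin 3 → F))

instance : MulAction (GL (Fin 3) F) (V3 F) where
  smul g x := (g : Matrix (Fin 3) (Fin 3) F) *ᵥ x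
  one_smul x := one_mulVec x
  mul_smul g h x := by
    change ((g * h : GL (Fin 3) F) : Matrix (Fin 3) (Fin 3) F) *ᵥ x =
      (g : Matrix (Fin 3) (Fin 3) F) *ᵥ ((h : Matrix (Fin 3) (Fin 3) F) *ᵥ x)
    rw [mulVec_mulVec, Units.val_mul]

theorem gl_smul_def (g : GL (Fin 3) F) (x : V3 F) :
    g • x = (g : Matrix (Fin 3) (Fin 3) F) *ᵥ (x : Fin 3 → F) := rfl

theorem gl_smul_smul (g : GL (Fin 3) F) (c : F) (x : V3 F) : g • (c • x) = c • (g • x) :=
  mulVec_smul _ _ _

theorem units_smul_def (c : Fˣ) (x : V3 F) : c • x = (c : F) • x := rfl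

/-- orthogonality for the standard hermitian form -/
def Orth (x y : V3 F) : Prop := star (x : Fin 3 → F) ⬝ᵥ (y : Fin 3 → F) = 0

theorem orth_smul (k : SUn (1 : Matrix (Fin 3) (Fin 3) F)) (x y : V3 F) :
    Orth (k • x) (k • y) ↔ Orth x y := by
  unfold Orth
  have h : (star (k • x : V3 F) : Fin 3 → F) ⬝ᵥ (k • y : V3 F) =
      star (x : Fin 3 → F) ⬝ᵥ (y : Fin 3 → F) := by
    change star ((k.1 : Matrix (Fin 3) (Fin 3) F) *ᵥ (x : Fin 3 → F)) ⬝ᵥ
      ((k.1 : Matrix (Fin 3) (Fin 3) F) *ᵥ (y : Fin 3 → F)) = _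
    rw [star_mulVec, dotProduct_mulVec, vecMul_vecMul]
    have h1 := k.2.1
    rw [Matrix.mul_one] at h1
    rw [h1, vecMul_one]
  rw [h]

theorem orth_scal (c : Fˣ) (x y : V3 F) : Orth (c • x) y ↔ Orth x y := by
  unfold Orth
  have h : (star (c • x : V3 F) : Fin 3 → F) ⬝ᵥ (y : Fin 3 → F) =
      star (c : F) * (star (x : Fin 3 → F) ⬝ᵥ (y : Fin 3 → F)) := by
    rw [dotProduct, dotProduct, Finset.mul_sum]
    refine Finset.sum_congr rfl fun i _ => ?_
    change star ((c : F) * x i) * y i = star (c : F) * (star (x i) * y i)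
    rw [star_mul']
    ring
  rw [h, mul_eq_zero, or_iff_right]
  rw [star_eq_zero]
  exact c.ne_zero

/-- the stabiliser of the line spanned by `v` in a subgroup `K` -/
def lineStab (K : Subgroup (GL (Fin 3) F)) (v : V3 F) : Subgroup K where
  carrier := {k | ∃ c : Fˣ, k • v = c • v}
  mul_mem' := by
    rintro a b ⟨c, hc⟩ ⟨d, hd⟩
    refine ⟨c * d, ?_⟩
    rw [mul_smul, hd]
    have : a • (d • v) = d • (a • v) := gl_smul_smul _ _ _
    rw [this, hc, ← mul_smul, mul_comm]
  one_mem' := ⟨1, by rw [one_smul, one_smul]⟩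
  inv_mem' := by
    rintro a ⟨c, hc⟩
    refine ⟨c⁻¹, ?_⟩
    rw [inv_smul_eq_iff]
    have : a • (c⁻¹ • v) = c⁻¹ • (a • v) := gl_smul_smul _ _ _
    rw [this, hc, inv_smul_smul]

theorem mem_lineStab {K : Subgroup (GL (Fin 3) F)} {v : V3 F} {k : K} :
    k ∈ lineStab K v ↔ ∃ c : Fˣ, k • v = c • v := Iff.rfl

/-- the standard basis vectors -/
def e₁ : V3 F := (![1, 0, 0] : Fin 3 → F)
def e₃ : V3 F := (![0, 0, 1] : Fin 3 → F)

theorem smul_e₁ (g : GL (Fin 3) F) : g • (e₁ : V3 F) = (![g.1 0 0, g.1 1 0, g.1 2 0] : Fin 3 → F) := by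
  rw [gl_smul_def]
  ext i
  fin_cases i <;> simp [e₁, mulVec, dotProduct, Fin.sum_univ_three]

theorem smul_e₃ (g : GL (Fin 3) F) : g • (e₃ : V3 F) = (![g.1 0 2, g.1 1 2, g.1 2 2] : Fin 3 → F) := by
  rw [gl_smul_def]
  ext i
  fin_cases i <;> simp [e₃, mulVec, dotProduct, Fin.sum_univ_three]

theorem orth_e₁ (y : V3 F) : Orth y e₁ ↔ y 0 = 0 := by
  unfold Orth
  have : star (y : Fin 3 → F) ⬝ᵥ ((e₁ : V3 F) : Fin 3 → F) = star (y 0) := by
    simp [e₁, dotProduct, Fin.sum_univ_three]
  rw [this, star_eq_zero]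

theorem orth_e₃ (y : V3 F) : Orth e₃ y ↔ y 2 = 0 := by
  unfold Orth
  have : star ((e₃ : V3 F) : Fin 3 → F) ⬝ᵥ (y : Fin 3 → F) = y 2 := by
    simp [e₃, dotProduct, Fin.sum_univ_three]
  rw [this]

/-- rotations in the plane of the first two coordinates -/
def rotMat (α β : F) : Matrix (Fin 3) (Fin 3) F := !![α, -star β, 0; β, star α, 0; 0, 0, 1]

theorem rotMat_det (α β : F) (h : α * star α + β * star β = 1) : (rotMat α β).det = 1 := by
  rw [rotMat, det_fin_three]
  simp
  linear_combination h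

/-- the rotation as an element of the special unitary group -/
noncomputable def rot (α β : F) (h : α * star α + β * star β = 1) :
    SUn (1 : Matrix (Fin 3) (Fin 3) F) :=
  ⟨GeneralLinearGroup.mkOfDetNeZero (rotMat α β) (by rw [rotMat_det α β h]; exact one_ne_zero), by
    refine ⟨?_, rotMat_det α β h⟩
    change (rotMat α β)ᴴ * 1 * rotMat α β = 1
    rw [Matrix.mul_one]
    ext i j
    fin_cases i <;> fin_cases j <;>
      simp [rotMat, Matrix.mul_apply, Fin.sum_univ_three, conjTranspose_apply] <;>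
      first | linear_combination h | ring⟩

theorem rot_e₁ (α β : F) (h : α * star α + β * star β = 1) :
    rot α β h • (e₁ : V3 F) = (![α, β, 0] : Fin 3 → F) := by
  have := smul_e₁ (rot α β h).1
  refine this.trans ?_
  rfl

theorem rot_e₃ (α β : F) (h : α * star α + β * star β = 1) :
    rot α β h • (e₃ : V3 F) = e₃ := by
  have := smul_e₃ (rot α β h).1
  refine this.trans ?_
  rfl

theorem rot_mem (α β : F) (h : α * star α + β * star β = 1) :
    rot α β h ∈ lineStab (SUn (1 : Matrix (Fin 3) (Fin 3) F)) e₃ :=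
  ⟨1, by rw [rot_e₃, one_smul]⟩

/-- the element exchanging the lines of `e₁` and `e₃` -/
def swapMat : Matrix (Fin 3) (Fin 3) F := !![0, 0, -1; 0, 1, 0; 1, 0, 0]

theorem swapMat_det : (swapMat : Matrix (Fin 3) (Fin 3) F).det = 1 := by
  rw [swapMat, det_fin_three]
  simp

/-- the element exchanging the lines of `e₁` and `e₃` -/
noncomputable def swap13 : SUn (1 : Matrix (Fin 3) (Fin 3) F) :=
  ⟨GeneralLinearGroup.mkOfDetNeZero swapMat (by rw [swapMat_det]; exact one_ne_zero), by
    refine ⟨?_, swapMat_det⟩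
    change (swapMat)ᴴ * 1 * swapMat = 1
    rw [Matrix.mul_one]
    ext i j
    fin_cases i <;> fin_cases j <;>
      simp [swapMat, Matrix.mul_apply, Fin.sum_univ_three, conjTranspose_apply]⟩

theorem swap_e₁ : (swap13 (F := F)) • (e₁ : V3 F) = e₃ := by
  refine (smul_e₁ (swap13 (F := F)).1).trans ?_
  rfl

end general

section card

variable {F : Type*} [Field F] [StarRing F] [Fintype F]

instance : Finite (GL (Fin 3) F) := inferInstance

noncomputable instance (J : Matrix (Fin 3) (Fin 3) F) : Fintype (SUn J) := Fintype.ofFinite _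

theorem card_lineStab_le : Nat.card (lineStab (SUn (1 : Matrix (Fin 3) (Fin 3) F)) e₃) ≤
    Nat.card (lineStab (SUn (1 : Matrix (Fin 3) (Fin 3) F)) e₁) := by
  refine Nat.card_le_card_of_injective (fun h => ⟨swap13⁻¹ * h.1 * swap13, ?_⟩) ?_
  · obtain ⟨h, c, hc⟩ := h
    refine ⟨c, ?_⟩
    rw [mul_smul, mul_smul, swap_e₁, hc]
    have : (swap13 (F := F))⁻¹ • (c • (e₃ : V3 F)) = c • ((swap13 (F := F))⁻¹ • e₃) :=
      gl_smul_smul ((swap13 (F := F))⁻¹).1 (c : F) e₃
    rw [this]
    congr 1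
    rw [inv_smul_eq_iff, swap_e₁]
  · intro a b hab
    simp only [Subtype.mk.injEq, mul_left_inj, mul_right_inj] at hab
    exact Subtype.ext hab

open Classical in
theorem count_orth (k : SUn (1 : Matrix (Fin 3) (Fin 3) F)) :
    (univ.filter fun y : V3 F => Orth y e₁ ∧ Orth y (k • e₁)).card =
      if k ∈ lineStab (SUn (1 : Matrix (Fin 3) (Fin 3) F)) e₁ then Fintype.card F ^ 2
        else Fintype.card F := by
  have hke : (k • (e₁ : V3 F)) = (![k.1.1 0 0, k.1.1 1 0, k.1.1 2 0] : Fin 3 → F) := smul_e₁ k.1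
  set a := k.1.1 0 0 with ha
  set b := k.1.1 1 0 with hb
  set c := k.1.1 2 0 with hc
  have hO : ∀ y : V3 F, (Orth y e₁ ∧ Orth y (k • e₁)) ↔
      (y 0 = 0 ∧ star (y 1) * b + star (y 2) * c = 0) := by
    intro y
    rw [orth_e₁, hke]
    refine and_congr_right fun h0 => ?_
    unfold Orth
    have : star (y : Fin 3 → F) ⬝ᵥ (![a, b, c] : Fin 3 → F) =
        star (y 1) * b + star (y 2) * c := by
      simp [dotProduct, Fin.sum_univ_three, h0]
    rw [this]
  have hmem : k ∈ lineStab (SUn (1 : Matrix (Fin 3) (Fin 3) F)) e₁ ↔ (b = 0 ∧ c = 0) := by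
    rw [mem_lineStab, hke]
    constructor
    · rintro ⟨d, hd⟩
      have h1 := congrFun hd 1
      have h2 := congrFun hd 2
      have h3 : (d • (e₁ : V3 F)) 1 = 0 := by
        change (d : F) * 0 = 0
        ring
      have h4 : (d • (e₁ : V3 F)) 2 = 0 := by
        change (d : F) * 0 = 0
        ring
      rw [h3] at h1
      rw [h4] at h2
      exact ⟨h1, h2⟩
    · rintro ⟨h1, h2⟩
      have ha0 : a ≠ 0 := by
        intro h0
        have h5 : (k • (e₁ : V3 F)) = k • (0 : V3 F) := by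
          rw [hke, h1, h2, h0]
          have : k • (0 : V3 F) = 0 := mulVec_zero _
          rw [this]
          ext i
          fin_cases i <;> rfl
        have h6 : (e₁ : V3 F) = 0 := MulAction.injective k h5
        have h7 := congrFun h6 0
        exact one_ne_zero h7
      refine ⟨Units.mk0 a ha0, ?_⟩
      rw [h1, h2]
      ext i
      fin_cases i
      · change a = a * 1
        ring
      · change (0 : F) = a * 0
        ring
      · change (0 : F) = a * 0
        ring
  split_ifs with hk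
  · obtain ⟨h1, h2⟩ := hmem.1 hk
    have : (univ.filter fun y : V3 F => Orth y e₁ ∧ Orth y (k • e₁)).card =
        Fintype.card (F × F) := by
      rw [← Finset.card_univ]
      refine Finset.card_bij' (fun y _ => (y 1, y 2)) (fun p _ => (![0, p.1, p.2] : Fin 3 → F))
        (fun _ _ => mem_univ _) ?_ ?_ ?_
      · intro p _
        rw [mem_filter, hO]
        refine ⟨mem_univ _, rfl, ?_⟩
        rw [h1, h2]
        ring
      · intro y hy
        rw [mem_filter, hO] at hy
        ext i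
        fin_cases i
        · exact hy.2.1.symm
        · rfl
        · rfl
      · intro p _
        rfl
    rw [this, Fintype.card_prod, sq]
  · have hbc : ¬ (b = 0 ∧ c = 0) := fun h => hk (hmem.2 h)
    rw [← Finset.card_univ]
    by_cases hb0 : b = 0
    · have hc0 : c ≠ 0 := fun h => hbc ⟨hb0, h⟩
      refine Finset.card_bij' (fun y _ => y 1) (fun p _ => (![0, p, 0] : Fin 3 → F))
        (fun _ _ => mem_univ _) ?_ ?_ ?_
      · intro p _
        rw [mem_filter, hO]
        refine ⟨mem_univ _, rfl, ?_⟩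
        change star p * b + star (0 : F) * c = 0
        rw [hb0, star_zero]
        ring
      · intro y hy
        rw [mem_filter, hO] at hy
        obtain ⟨-, h0, h3⟩ := hy
        rw [hb0, mul_zero, zero_add, mul_eq_zero, star_eq_zero, or_iff_left hc0] at h3
        ext i
        fin_cases i
        · exact h0.symm
        · rfl
        · exact h3.symm
      · intro p _
        rfl
    · refine Finset.card_bij' (fun y _ => y 2)
        (fun p _ => (![0, star (-(star p * c) / b), p] : Fin 3 → F))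
        (fun _ _ => mem_univ _) ?_ ?_ ?_
      · intro p _
        rw [mem_filter, hO]
        refine ⟨mem_univ _, rfl, ?_⟩
        change star (star (-(star p * c) / b)) * b + star p * c = 0
        rw [star_star]
        field_simp
        ring
      · intro y hy
        rw [mem_filter, hO] at hy
        obtain ⟨-, h0, h3⟩ := hy
        ext i
        fin_cases i
        · exact h0.symm
        · change star (-(star (y 2) * c) / b) = y 1
          have : -(star (y 2) * c) / b = star (y 1) := by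
            rw [div_eq_iff hb0]
            linear_combination -h3
          rw [this, star_star]
        · rfl
      · intro p _
        rfl

/-- elements mapping `e₁` to a vector orthogonal to `e₃` are products -/
theorem decomp (k : SUn (1 : Matrix (Fin 3) (Fin 3) F)) (hk : Orth e₃ (k • (e₁ : V3 F))) :
    ∃ h₁ ∈ lineStab (SUn (1 : Matrix (Fin 3) (Fin 3) F)) e₃,
      ∃ h₂ ∈ lineStab (SUn (1 : Matrix (Fin 3) (Fin 3) F)) e₁, k = h₁ * h₂ := by
  have hke : (k • (e₁ : V3 F)) = (![k.1.1 0 0, k.1.1 1 0, k.1.1 2 0] : Fin 3 → F) := smul_e₁ k.1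
  rw [orth_e₃, hke] at hk
  have h2 : k.1.1 2 0 = 0 := hk
  have hu : k.1.1 0 0 * star (k.1.1 0 0) + k.1.1 1 0 * star (k.1.1 1 0) = 1 := by
    have h3 := congrFun (congrFun k.2.1 0) 0
    rw [Matrix.mul_one, Matrix.mul_apply, Fin.sum_univ_three, conjTranspose_apply,
      conjTranspose_apply, conjTranspose_apply, h2, mul_zero, add_zero, one_apply_eq] at h3
    linear_combination h3
  refine ⟨rot _ _ hu, rot_mem _ _ hu, (rot _ _ hu)⁻¹ * k, ⟨1, ?_⟩, (mul_inv_cancel_left _ _).symm⟩
  rw [mul_smul, inv_smul_eq_iff, one_smul, rot_e₁, hke, h2]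

end card

end Pool.Agent.K4H22.T
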