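import Mathlib
import Pool.Agent.K4H22.T.Unit3

/-!
# The angle for the special unitary group over the field with 25 elements
-/

set_option autoImplicit false
set_option linter.unusedSectionVars false

namespace Pool.Agent.K4H22.T

open Matrix Finset Polynomial
open scoped InnerProductSpace

/-- the special unitary group over the field with 25 elements -/
abbrev K0 : Type := SUn (1 : Matrix (Fin 3) (Fin 3) (F 0))

/-- stabiliser of the line of `e₃` -/
noncomputable abbrev L3 : Subgroup K0 := lineStab (SUn (1 : Matrix (Fin 3) (Fin 3) (F 0))) e₃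

/-- stabiliser of the line of `e₁` -/
noncomputable abbrev L1 : Subgroup K0 := lineStab (SUn (1 : Matrix (Fin 3) (Fin 3) (F 0))) e₁

theorem card_F0 : Fintype.card (F 0) = 25 := by
  rw [card_F]
  rfl

theorem card_good : 19 ≤ Nat.card {β : F 0 // 1 + β * star β ≠ 0} := by
  classical
  have h1 : Nat.card {β : F 0 // ¬ (1 + β * star β = 0)} =
      Fintype.card (F 0) - Fintype.card {β : F 0 // 1 + β * star β = 0} := by
    rw [Nat.card_eq_fintype_card, Fintype.card_subtype_compl]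
  have h2 : Fintype.card {β : F 0 // 1 + β * star β = 0} ≤ 6 := by
    rw [Fintype.card_subtype]
    have h3 : (univ.filter fun β : F 0 => 1 + β * star β = 0) ⊆
        (nthRoots 6 (-1 : F 0)).toFinset := by
      intro β hβ
      rw [mem_filter] at hβ
      rw [Multiset.mem_toFinset, mem_nthRoots (by norm_num)]
      have h4 : star β = β ^ 5 := rfl
      have h5 := hβ.2
      rw [h4] at h5
      linear_combination h5
    refine (Finset.card_le_card h3).trans ?_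
    exact (Multiset.toFinset_card_le _).trans (card_nthRoots 6 _)
  have h6 : Nat.card {β : F 0 // 1 + β * star β ≠ 0} =
      Nat.card {β : F 0 // ¬ (1 + β * star β = 0)} := rfl
  rw [h6, h1, card_F0]
  omega

/-- an element of the group moving `e₁` into the line of `(1, β, 0)` -/
theorem exists_move (β : F 0) (hβ : 1 + β * star β ≠ 0) :
    ∃ k : K0, ∃ μ : (F 0)ˣ, k • (e₁ : V3 (F 0)) = μ • ((![1, β, 0] : Fin 3 → F 0) : V3 (F 0)) := by
  have hs : star ((1 + β * star β)⁻¹) = (1 + β * star β)⁻¹ := by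
    rw [star_inv₀, star_add, star_mul', star_star, star_one, mul_comm (star β)]
  obtain ⟨μ, hμ⟩ := norm_surj ((1 + β * star β)⁻¹) hs
  have hμ0 : μ ≠ 0 := by
    rintro rfl
    rw [zero_mul] at hμ
    exact (inv_ne_zero hβ) hμ.symm
  have hr : μ * star μ + (μ * β) * star (μ * β) = 1 := by
    rw [star_mul']
    have h1 : μ * star μ + μ * β * (star μ * star β) = (μ * star μ) * (1 + β * star β) := by ring
    rw [h1, hμ, inv_mul_cancel₀ hβ]
  refine ⟨rot _ _ hr, Units.mk0 μ hμ0, ?_⟩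
  rw [rot_e₁]
  ext i
  fin_cases i
  · change μ = μ * 1
    ring
  · rfl
  · change (0 : F 0) = μ * 0
    ring

open Classical in
theorem card_orth : 19 * Nat.card L1 ≤
    (univ.filter fun k : K0 => Orth e₃ (k • (e₁ : V3 (F 0)))).card := by
  have h1 : 19 * Nat.card L1 ≤ Nat.card ({β : F 0 // 1 + β * star β ≠ 0} × L1) := by
    rw [Nat.card_prod]
    exact Nat.mul_le_mul_right _ card_good
  refine h1.trans ?_
  rw [Nat.card_eq_fintype_card, ← Finset.card_univ]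
  choose k μ hk using exists_move
  refine Finset.card_le_card_of_injOn (fun p => k p.1.1 p.1.2 * p.2.1) ?_ ?_
  · rintro ⟨⟨β, hβ⟩, ⟨h, hh⟩⟩ _
    obtain ⟨c, hc⟩ := hh
    rw [mem_coe, mem_filter]
    refine ⟨mem_univ _, ?_⟩
    change Orth e₃ ((k β hβ * h) • (e₁ : V3 (F 0)))
    rw [mul_smul, hc, orth_e₃]
    have h2 : k β hβ • (c • (e₁ : V3 (F 0))) = c • (k β hβ • e₁) :=
      gl_smul_smul (k β hβ).1 (c : F 0) e₁
    rw [h2, hk]
    change (c : F 0) * ((μ β hβ : F 0) * 0) = 0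
    ring
  · rintro ⟨⟨β, hβ⟩, ⟨h, hh⟩⟩ _ ⟨⟨β', hβ'⟩, ⟨h', hh'⟩⟩ _ heq
    obtain ⟨c, hc⟩ := id hh
    obtain ⟨c', hc'⟩ := id hh'
    have heq : k β hβ * h = k β' hβ' * h' := heq
    have h3 : (k β hβ * h) • (e₁ : V3 (F 0)) = (k β' hβ' * h') • e₁ := by rw [heq]
    rw [mul_smul, mul_smul, hc, hc'] at h3
    have h2 : k β hβ • (c • (e₁ : V3 (F 0))) = c • (k β hβ • e₁) :=
      gl_smul_smul (k β hβ).1 (c : F 0) e₁
    have h2' : k β' hβ' • (c' • (e₁ : V3 (F 0))) = c' • (k β' hβ' • e₁) :=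
      gl_smul_smul (k β' hβ').1 (c' : F 0) e₁
    rw [h2, h2', hk, hk] at h3
    have h4 : (c : F 0) * ((μ β hβ : F 0) * 1) = c' * ((μ β' hβ' : F 0) * 1) := congrFun h3 0
    have h5 : (c : F 0) * ((μ β hβ : F 0) * β) = c' * ((μ β' hβ' : F 0) * β') := congrFun h3 1
    have h6 : β = β' := by
      have h7 : ((c : F 0) * (μ β hβ : F 0)) ≠ 0 := mul_ne_zero c.ne_zero (μ β hβ).ne_zero
      apply mul_left_cancel₀ h7
      linear_combination h5 - β' * h4
    subst h6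
    have h8 : h = h' := mul_left_cancel heq
    subst h8
    rfl

variable {H : Type*} [NormedAddCommGroup H] [InnerProductSpace ℂ H] [CompleteSpace H]

theorem ang25 (ρ : K0 →* unitary (H →L[ℂ] H)) (v₁ v₂ : H)
    (hv₁ : v₁ ∈ fixedBy ρ (L3 : Set K0)) (hv₂ : v₂ ∈ fixedBy ρ (L1 : Set K0))
    (hv : v₂ ∈ (fixedBy ρ Set.univ)ᗮ) : ‖⟪v₁, v₂⟫_ℂ‖ ≤ 5 / 19 * ‖v₁‖ * ‖v₂‖ := by
  classical
  have h := angle (M := (F 0)ˣ) ρ (fun x y : V3 (F 0) => Orth x y)
    (fun k x y => orth_smul k x y) e₁ e₃ L3 L1 (Fintype.card (F 0) ^ 2) (Fintype.card (F 0))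
    (by rw [card_F0]; norm_num) (fun k => by convert count_orth k) (fun k hk => decomp k hk)
    (fun μ x y => orth_scal μ x y)
    (by
      intro μ μ' g g' hg
      refine ⟨μ'⁻¹ * μ, ?_⟩
      rw [mul_smul, inv_smul_eq_iff]
      have h1 : g • ((μ'⁻¹ * μ) • (e₃ : V3 (F 0))) = (μ'⁻¹ * μ) • (g • e₃) :=
        gl_smul_smul g.1 ((μ'⁻¹ * μ : (F 0)ˣ) : F 0) e₃
      rw [h1, mul_smul, hg, inv_smul_smul])
    (by
      intro μ μ' g hg
      have h1 : g • ((μ : (F 0)ˣ) • (e₃ : V3 (F 0))) = μ • (g • e₃) :=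
        gl_smul_smul g.1 (μ : F 0) e₃
      have h2 : g • ((μ' : (F 0)ˣ) • (e₃ : V3 (F 0))) = μ' • (g • e₃) :=
        gl_smul_smul g.1 (μ' : F 0) e₃
      rw [← h1, ← h2] at hg
      have h3 := MulAction.injective g hg
      have h4 : (μ : F 0) * 1 = μ' * 1 := congrFun h3 2
      ext
      linear_combination h4)
    v₁ v₂ hv₁ hv₂ (fun w hw => (Submodule.mem_orthogonal' _ _).1 hv w (fun g _ => hw g))
  have hN := card_orth
  have hL : Nat.card L3 ≤ Nat.card L1 := card_lineStab_le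
  have hpos : 0 < Nat.card L1 := Nat.card_pos
  rw [Fintype.card_units, card_F0] at h
  set N := (univ.filter fun k : K0 => Orth e₃ (k • (e₁ : V3 (F 0)))).card with hNdef
  set l : ℝ := (Nat.card L1 : ℝ) with hl
  have hl0 : 0 < l := by rw [hl]; exact_mod_cast hpos
  have hl1 : (Nat.card L3 : ℝ) ≤ l := by rw [hl]; exact_mod_cast hL
  have hN' : 19 * l ≤ (N : ℝ) := by rw [hl]; exact_mod_cast hN
  set t := ‖⟪v₁, v₂⟫_ℂ‖ with ht
  have ht0 : 0 ≤ t := norm_nonneg _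
  have hn1 : 0 ≤ ‖v₁‖ := norm_nonneg _
  have hn2 : 0 ≤ ‖v₂‖ := norm_nonneg _
  have e1 : ((25 - 1 : ℕ) : ℝ) = 24 := by norm_num
  have e2 : ((25 ^ 2 - 25 : ℕ) : ℝ) = 600 := by norm_num
  rw [e1, e2] at h
  have h1 : 24 * (19 * l * t) ^ 2 ≤ 24 * ((N : ℝ) * t) ^ 2 := by gcongr
  have h2 : (Nat.card L3 : ℝ) * l * 600 * ‖v₁‖ ^ 2 * ‖v₂‖ ^ 2 ≤
      l * l * 600 * ‖v₁‖ ^ 2 * ‖v₂‖ ^ 2 := by gcongr
  have h3 : l ^ 2 * (19 * t) ^ 2 ≤ l ^ 2 * (5 * ‖v₁‖ * ‖v₂‖) ^ 2 := by nlinarith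
  have h4 : (19 * t) ^ 2 ≤ (5 * ‖v₁‖ * ‖v₂‖) ^ 2 := le_of_mul_le_mul_left h3 (by positivity)
  have h5 : 19 * t ≤ 5 * ‖v₁‖ * ‖v₂‖ := le_of_sq_le_sq h4 (by positivity)
  linarith

end Pool.Agent.K4H22.T
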