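import Mathlib

/-!
# A criterion for invariant vectors: three subspaces with small pairwise angles
-/

set_option autoImplicit false
set_option linter.unusedSectionVars false

namespace Pool.Agent.K4H22.T

open Submodule Filter Topology
open scoped InnerProductSpace

variable {H : Type*} [NormedAddCommGroup H] [InnerProductSpace ℂ H]

/-- the angle condition for two subspaces `U`, `V` relative to a common subspace `W` -/
def Ang (U V W : Submodule ℂ H) (ε : ℝ) : Prop :=
  ∀ x ∈ U, x ∈ Wᗮ → ∀ y ∈ V, y ∈ Wᗮ → ‖⟪x, y⟫_ℂ‖ ≤ ε * ‖x‖ * ‖y‖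

theorem sq_norm_sub_proj (U : Submodule ℂ H) [U.HasOrthogonalProjection] (x : H) :
    ‖x - U.starProjection x‖ ^ 2 = ‖x‖ ^ 2 - ‖U.starProjection x‖ ^ 2 := by
  have h := norm_sq_eq_add_norm_sq_starProjection x U
  have h2 : Uᗮ.starProjection x = x - U.starProjection x := by
    have := U.starProjection_add_starProjection_orthogonal x
    rw [← this]
    simp
  rw [h2] at h
  linarith

theorem proj_sub_mem (U W : Submodule ℂ H) [U.HasOrthogonalProjection]
    (hW : W ≤ U) (z : H) (hz : z ∈ Wᗮ) : U.starProjection z ∈ Wᗮ := by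
  rw [mem_orthogonal]
  intro w hw
  rw [← inner_starProjection_left_eq_right]
  rw [starProjection_eq_self_iff.2 (hW hw)]
  exact (mem_orthogonal _ _).1 hz w hw

theorem pair_bound (U V W : Submodule ℂ H) [U.HasOrthogonalProjection]
    [V.HasOrthogonalProjection] [W.HasOrthogonalProjection] (hU : W ≤ U) (hV : W ≤ V) {ε : ℝ}
    (h0 : 0 ≤ ε) (h1 : ε < 1) (hang : Ang U V W ε) (x : H) :
    ‖V.starProjection x - U.starProjection (V.starProjection x)‖ ^ 2 ≤
      (‖x - U.starProjection x‖ ^ 2 + ε * ‖x - V.starProjection x‖ ^ 2) / (1 - ε) := by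
  obtain ⟨z, hz⟩ : ∃ z, z = x - W.starProjection x := ⟨_, rfl⟩
  have hzW : z ∈ Wᗮ := hz ▸ W.sub_starProjection_mem_orthogonal x
  have hxz : x = z + W.starProjection x := by rw [hz]; abel
  have hWU : U.starProjection (W.starProjection x) = W.starProjection x :=
    starProjection_eq_self_iff.2 (hU (W.starProjection_apply_mem x))
  have hWV : V.starProjection (W.starProjection x) = W.starProjection x :=
    starProjection_eq_self_iff.2 (hV (W.starProjection_apply_mem x))
  have hUx : x - U.starProjection x = z - U.starProjection z := by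
    conv_lhs => rw [hxz, map_add, hWU]
    abel
  have hVx : x - V.starProjection x = z - V.starProjection z := by
    conv_lhs => rw [hxz, map_add, hWV]
    abel
  have hL : V.starProjection x - U.starProjection (V.starProjection x) =
      V.starProjection z - U.starProjection (V.starProjection z) := by
    have : V.starProjection x = V.starProjection z + W.starProjection x := by
      conv_lhs => rw [hxz, map_add, hWV]
    rw [this, map_add, hWU]
    abel
  rw [hL, hUx, hVx, sq_norm_sub_proj U, sq_norm_sub_proj U, sq_norm_sub_proj V]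
  obtain ⟨a, ha⟩ : ∃ a, a = U.starProjection z := ⟨_, rfl⟩
  obtain ⟨b, hb⟩ : ∃ b, b = V.starProjection z := ⟨_, rfl⟩
  rw [← ha, ← hb]
  have haU : a ∈ U := ha ▸ U.starProjection_apply_mem z
  have hbV : b ∈ V := hb ▸ V.starProjection_apply_mem z
  have haW : a ∈ Wᗮ := ha ▸ proj_sub_mem U W hU z hzW
  have hbW : b ∈ Wᗮ := hb ▸ proj_sub_mem V W hV z hzW
  have hab := hang a haU haW b hbV hbW
  -- the sum of the squares
  have haa : ‖a‖ ^ 2 = (⟪z, a⟫_ℂ).re := by
    have h2 : ⟪z, a⟫_ℂ = ⟪a, a⟫_ℂ := by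
      conv_lhs => rw [← starProjection_eq_self_iff.2 haU]
      rw [← inner_starProjection_left_eq_right, ← ha]
    rw [h2]
    exact (inner_self_eq_norm_sq (𝕜 := ℂ) a).symm
  have hbb : ‖b‖ ^ 2 = (⟪z, b⟫_ℂ).re := by
    have h2 : ⟪z, b⟫_ℂ = ⟪b, b⟫_ℂ := by
      conv_lhs => rw [← starProjection_eq_self_iff.2 hbV]
      rw [← inner_starProjection_left_eq_right, ← hb]
    rw [h2]
    exact (inner_self_eq_norm_sq (𝕜 := ℂ) b).symm
  have hsum : ‖a‖ ^ 2 + ‖b‖ ^ 2 ≤ ‖z‖ * ‖a + b‖ := by
    rw [haa, hbb, ← Complex.add_re, ← inner_add_right]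
    exact re_inner_le_norm (𝕜 := ℂ) z (a + b)
  have hnab : ‖a + b‖ ^ 2 ≤ (1 + ε) * (‖a‖ ^ 2 + ‖b‖ ^ 2) := by
    have h3 := norm_add_sq (𝕜 := ℂ) a b
    have h4 : RCLike.re (⟪a, b⟫_ℂ) ≤ ‖⟪a, b⟫_ℂ‖ := RCLike.re_le_norm _
    have h5 : 2 * (‖a‖ * ‖b‖) ≤ ‖a‖ ^ 2 + ‖b‖ ^ 2 := by nlinarith [sq_nonneg (‖a‖ - ‖b‖)]
    have h6 : RCLike.re (⟪a, b⟫_ℂ) ≤ ε * ‖a‖ * ‖b‖ := h4.trans hab
    nlinarith
  have hS : ‖a‖ ^ 2 + ‖b‖ ^ 2 ≤ (1 + ε) * ‖z‖ ^ 2 := by
    set S := ‖a‖ ^ 2 + ‖b‖ ^ 2 with hSdef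
    have hS0 : 0 ≤ S := by positivity
    have h7 : S ^ 2 ≤ ‖z‖ ^ 2 * ((1 + ε) * S) := by
      calc S ^ 2 ≤ (‖z‖ * ‖a + b‖) ^ 2 := by gcongr
        _ = ‖z‖ ^ 2 * ‖a + b‖ ^ 2 := by ring
        _ ≤ ‖z‖ ^ 2 * ((1 + ε) * S) := by gcongr
    rcases hS0.eq_or_lt with h8 | h8
    · rw [← h8]
      positivity
    · have : S * S ≤ ((1 + ε) * ‖z‖ ^ 2) * S := by nlinarith
      exact le_of_mul_le_mul_right this h8
  have h9 : 0 ≤ ‖U.starProjection b‖ ^ 2 := by positivity
  rw [le_div_iff₀ (by linarith)]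
  nlinarith [norm_nonneg a, norm_nonneg b, norm_nonneg z, sq_nonneg ‖b‖, sq_nonneg ‖z‖]

variable (V : Fin 3 → Submodule ℂ H) [∀ i, (V i).HasOrthogonalProjection]

/-- the sum of the squares of the distances to the three subspaces -/
noncomputable def dev (x : H) : ℝ := ∑ i, ‖x - (V i).starProjection x‖ ^ 2

/-- the mean of the three projections -/
noncomputable def avg (x : H) : H := (3⁻¹ : ℂ) • ∑ i, (V i).starProjection x

theorem dev_nonneg (x : H) : 0 ≤ dev V x := Finset.sum_nonneg fun _ _ => by positivity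

theorem sq_norm_add_le (a b : H) : ‖a + b‖ ^ 2 ≤ 2 * (‖a‖ ^ 2 + ‖b‖ ^ 2) := by
  have h := norm_add_le a b
  have h0 := norm_nonneg (a + b)
  nlinarith [sq_nonneg (‖a‖ - ‖b‖), norm_nonneg a, norm_nonneg b]

theorem sub_avg_proj (i j k : Fin 3) (hij : i ≠ j) (hik : i ≠ k) (hjk : j ≠ k) (x : H) :
    avg V x - (V i).starProjection (avg V x) = (3⁻¹ : ℂ) •
      (((V j).starProjection x - (V i).starProjection ((V j).starProjection x)) +
       ((V k).starProjection x - (V i).starProjection ((V k).starProjection x))) := by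
  have hs : ∑ l, (V l).starProjection x =
      (V i).starProjection x + (V j).starProjection x + (V k).starProjection x := by
    have : (Finset.univ : Finset (Fin 3)) = {i, j, k} := by
      revert i j k
      decide
    rw [this, Finset.sum_insert, Finset.sum_insert, Finset.sum_singleton]
    · abel
    · simpa using hjk
    · simpa using ⟨hij, hik⟩
  have hii : (V i).starProjection ((V i).starProjection x) = (V i).starProjection x :=
    starProjection_eq_self_iff.2 ((V i).starProjection_apply_mem x)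
  unfold avg
  rw [map_smul, ← smul_sub, hs, map_add, map_add, hii]
  congr 1
  abel

theorem dev_avg_le {ε : ℝ} (h0 : 0 ≤ ε) (h1 : ε < 1)
    (hang : ∀ i j, i ≠ j → ∃ W : Submodule ℂ H, ∃ _ : W.HasOrthogonalProjection,
      W ≤ V i ∧ W ≤ V j ∧ Ang (V i) (V j) W ε) (x : H) :
    dev V (avg V x) ≤ (4 / 9 * ((1 + ε) / (1 - ε))) * dev V x := by
  have key : ∀ i j, i ≠ j →
      ‖(V j).starProjection x - (V i).starProjection ((V j).starProjection x)‖ ^ 2 ≤
      (‖x - (V i).starProjection x‖ ^ 2 + ε * ‖x - (V j).starProjection x‖ ^ 2) / (1 - ε) := by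
    intro i j hij
    obtain ⟨W, hW, hi, hj, hA⟩ := hang i j hij
    exact pair_bound (V i) (V j) W hi hj h0 h1 hA x
  have one : ∀ i j k, i ≠ j → i ≠ k → j ≠ k →
      ‖avg V x - (V i).starProjection (avg V x)‖ ^ 2 ≤ 2 / 9 *
      ((‖x - (V i).starProjection x‖ ^ 2 + ε * ‖x - (V j).starProjection x‖ ^ 2) / (1 - ε) +
       (‖x - (V i).starProjection x‖ ^ 2 + ε * ‖x - (V k).starProjection x‖ ^ 2) / (1 - ε)) := by
    intro i j k hij hik hjk
    rw [sub_avg_proj V i j k hij hik hjk x, norm_smul, mul_pow]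
    have h3 : ‖(3⁻¹ : ℂ)‖ ^ 2 = 1 / 9 := by norm_num
    rw [h3]
    have h4 := sq_norm_add_le
      ((V j).starProjection x - (V i).starProjection ((V j).starProjection x))
      ((V k).starProjection x - (V i).starProjection ((V k).starProjection x))
    have h5 := key i j hij
    have h6 := key i k hik
    linarith
  have hd : dev V x = ‖x - (V 0).starProjection x‖ ^ 2 + ‖x - (V 1).starProjection x‖ ^ 2 +
      ‖x - (V 2).starProjection x‖ ^ 2 := by
    unfold dev
    rw [Fin.sum_univ_three]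
  have hd' : dev V (avg V x) = ‖avg V x - (V 0).starProjection (avg V x)‖ ^ 2 +
      ‖avg V x - (V 1).starProjection (avg V x)‖ ^ 2 +
      ‖avg V x - (V 2).starProjection (avg V x)‖ ^ 2 := by
    unfold dev
    rw [Fin.sum_univ_three]
  have a0 := one 0 1 2 (by decide) (by decide) (by decide)
  have a1 := one 1 0 2 (by decide) (by decide) (by decide)
  have a2 := one 2 0 1 (by decide) (by decide) (by decide)
  rw [hd', hd]
  refine (add_le_add (add_le_add a0 a1) a2).trans (le_of_eq ?_)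
  have : (1 - ε) ≠ 0 := by linarith
  field_simp
  ring

theorem norm_avg_sub_sq (x : H) : ‖avg V x - x‖ ^ 2 ≤ dev V x := by
  have h : avg V x - x = (3⁻¹ : ℂ) • ∑ i, ((V i).starProjection x - x) := by
    unfold avg
    rw [Finset.sum_sub_distrib, smul_sub, Finset.sum_const, Finset.card_univ, Fintype.card_fin,
      ← Nat.cast_smul_eq_nsmul ℂ, smul_smul]
    norm_num
  rw [h, norm_smul, mul_pow]
  have h3 : ‖(3⁻¹ : ℂ)‖ ^ 2 = 1 / 9 := by norm_num
  rw [h3]
  have h4 : ‖∑ i, ((V i).starProjection x - x)‖ ≤ ∑ i, ‖(V i).starProjection x - x‖ :=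
    norm_sum_le _ _
  have h5 : dev V x = ‖(V 0).starProjection x - x‖ ^ 2 + ‖(V 1).starProjection x - x‖ ^ 2 +
      ‖(V 2).starProjection x - x‖ ^ 2 := by
    unfold dev
    rw [Fin.sum_univ_three]
    simp only [norm_sub_rev]
  rw [h5]
  obtain ⟨s, hs⟩ : ∃ s, s = ∑ i, ((V i).starProjection x - x) := ⟨_, rfl⟩
  rw [← hs] at h4 ⊢
  rw [Fin.sum_univ_three] at h4
  set a := ‖(V 0).starProjection x - x‖
  set b := ‖(V 1).starProjection x - x‖
  set c := ‖(V 2).starProjection x - x‖
  have ha : 0 ≤ a := norm_nonneg _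
  have hb : 0 ≤ b := norm_nonneg _
  have hc : 0 ≤ c := norm_nonneg _
  have h6 := norm_nonneg s
  have h7 : ‖s‖ ^ 2 ≤ (a + b + c) ^ 2 := by gcongr
  nlinarith [sq_nonneg (a - b), sq_nonneg (b - c), sq_nonneg (a - c)]

/-- If the angles are small and a vector `x` is close to the three subspaces, then there is a
non-zero vector in the intersection of the three subspaces. -/
theorem exists_mem [CompleteSpace H] {ε : ℝ} (h0 : 0 ≤ ε) (h1 : ε < 5 / 13)
    (hang : ∀ i j, i ≠ j → ∃ W : Submodule ℂ H, ∃ _ : W.HasOrthogonalProjection,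
      W ≤ V i ∧ W ≤ V j ∧ Ang (V i) (V j) W ε) (x : H) (hx : ‖x‖ = 1)
    (hd : dev V x < (1 - Real.sqrt (4 / 9 * ((1 + ε) / (1 - ε)))) ^ 2) :
    ∃ y : H, y ≠ 0 ∧ ∀ i, y ∈ V i := by
  obtain ⟨c, hc⟩ : ∃ c, c = 4 / 9 * ((1 + ε) / (1 - ε)) := ⟨_, rfl⟩
  rw [← hc] at hd
  have hc0 : 0 ≤ c := by
    have : 0 ≤ (1 + ε) / (1 - ε) := div_nonneg (by linarith) (by linarith)
    rw [hc]
    positivity
  have hc1 : c < 1 := by
    rw [hc]
    have : (1 + ε) / (1 - ε) < 9 / 4 := by
      rw [div_lt_iff₀ (by linarith)]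
      linarith
    linarith
  set r := Real.sqrt c with hr
  have hr0 : 0 ≤ r := Real.sqrt_nonneg c
  have hr1 : r < 1 := by
    rw [hr, Real.sqrt_lt' one_pos]
    linarith
  have hr2 : r ^ 2 = c := Real.sq_sqrt hc0
  let u : ℕ → H := fun n => (avg V)^[n] x
  have hu : ∀ n, u (n + 1) = avg V (u n) := fun n => Function.iterate_succ_apply' _ _ _
  have hdu : ∀ n, dev V (u n) ≤ c ^ n * dev V x := by
    intro n
    induction n with
    | zero => simp [u]
    | succ n ih =>
      rw [hu]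
      refine (dev_avg_le V h0 (by linarith) hang (u n)).trans ?_
      rw [← hc, pow_succ]
      calc c * dev V (u n) ≤ c * (c ^ n * dev V x) := by gcongr
        _ = c ^ n * c * dev V x := by ring
  set C := Real.sqrt (dev V x) with hC
  have hC0 : 0 ≤ C := Real.sqrt_nonneg _
  have hC2 : C ^ 2 = dev V x := Real.sq_sqrt (dev_nonneg V x)
  have hstep : ∀ n, dist (u n) (u (n + 1)) ≤ C * r ^ n := by
    intro n
    rw [dist_eq_norm, norm_sub_rev, hu]
    have h2 : ‖avg V (u n) - u n‖ ^ 2 ≤ (C * r ^ n) ^ 2 := by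
      refine (norm_avg_sub_sq V (u n)).trans ((hdu n).trans (le_of_eq ?_))
      rw [mul_pow, hC2, ← pow_mul, mul_comm n 2, pow_mul, hr2]
      ring
    exact le_of_sq_le_sq h2 (by positivity)
  have hcau : CauchySeq u := cauchySeq_of_le_geometric r C hr1 hstep
  obtain ⟨y, hy⟩ := cauchySeq_tendsto_of_complete hcau
  have hdist : dist (u 0) y ≤ C / (1 - r) := dist_le_of_le_geometric_of_tendsto₀ r C hr1 hstep hy
  have hCr : C < 1 - r := by
    have h2 : C ^ 2 < (1 - r) ^ 2 := by rw [hC2]; exact hd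
    exact lt_of_pow_lt_pow_left₀ 2 (by linarith) h2
  have hlt : C / (1 - r) < 1 := by
    rw [div_lt_one (by linarith)]
    exact hCr
  refine ⟨y, ?_, ?_⟩
  · rintro rfl
    rw [dist_eq_norm, sub_zero] at hdist
    have : ‖u 0‖ = 1 := hx
    linarith
  · intro i
    have hcont : Tendsto (fun n => ‖u n - (V i).starProjection (u n)‖ ^ 2) atTop
        (𝓝 (‖y - (V i).starProjection y‖ ^ 2)) := by
      have h3 : Tendsto (fun n => (V i).starProjection (u n)) atTop
          (𝓝 ((V i).starProjection y)) :=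
        ((V i).starProjection.continuous.tendsto y).comp hy
      exact ((hy.sub h3).norm).pow 2
    have hz : Tendsto (fun n => ‖u n - (V i).starProjection (u n)‖ ^ 2) atTop (𝓝 0) := by
      have h4 : Tendsto (fun n => c ^ n * dev V x) atTop (𝓝 (0 * dev V x)) :=
        (tendsto_pow_atTop_nhds_zero_of_lt_one hc0 hc1).mul_const _
      rw [zero_mul] at h4
      refine squeeze_zero (fun n => by positivity) (fun n => ?_) h4
      refine le_trans ?_ (hdu n)
      exact Finset.single_le_sum (f := fun i => ‖u n - (V i).starProjection (u n)‖ ^ 2)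
        (fun _ _ => by positivity) (Finset.mem_univ i)
    have h5 := tendsto_nhds_unique hcont hz
    have h6 : y - (V i).starProjection y = 0 := by
      have : ‖y - (V i).starProjection y‖ = 0 := by
        exact pow_eq_zero_iff (two_ne_zero) |>.1 h5
      exact norm_eq_zero.1 this
    rw [← starProjection_eq_self_iff]
    exact (sub_eq_zero.1 h6).symm

end Pool.Agent.K4H22.T
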