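import Mathlib
import Pool.Agent.K4H22.T.Ang25
import Pool.Agent.K4H22.T.Crit

/-!
# The group generated by three copies of the special unitary group over the field with 25 elements
-/

set_option autoImplicit false
set_option linter.unusedSectionVars false

namespace Pool.Agent.K4H22.T

open Matrix Finset
open scoped InnerProductSpace

/-- the embedding of the small field -/
noncomputable def jj (n : ℕ) : F 0 →+* F n := (exists_emb n).choose

theorem jj_star (n : ℕ) (x : F 0) : jj n (star x) = star (jj n x) := (exists_emb n).choose_spec x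

/-- the generator of norm one -/
noncomputable def zeta (n : ℕ) : F n := (exists_zeta n).choose

theorem zeta_mul_star (n : ℕ) : zeta n * star (zeta n) = 1 := (exists_zeta n).choose_spec.1

theorem zeta_gen (n : ℕ) (S : Subring (F n)) (h : zeta n ∈ S) : S = ⊤ :=
  (exists_zeta n).choose_spec.2 S h

theorem zeta_ne (n : ℕ) : zeta n ≠ 0 := by
  intro h
  have := zeta_mul_star n
  rw [h, zero_mul] at this
  exact zero_ne_one this

/-- the ambient group -/
abbrev MM : Type := ∀ n : ℕ, GL (Fin 3) (F n)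

/-- the diagonal embedding of the small group -/
noncomputable def iota : K0 →* MM where
  toFun k n := GeneralLinearGroup.map (jj n) k.1
  map_one' := by
    funext n
    exact map_one _
  map_mul' a b := by
    funext n
    exact map_mul (GeneralLinearGroup.map (jj n)) a.1 b.1

theorem iota_apply (k : K0) (n : ℕ) (i j : Fin 3) :
    (iota k n).1 i j = jj n (k.1.1 i j) := rfl

/-- the cyclic permutation -/
def cycMat (F : Type*) [Field F] : Matrix (Fin 3) (Fin 3) F := !![0, 0, 1; 1, 0, 0; 0, 1, 0]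

theorem cycMat_det (F : Type*) [Field F] : (cycMat F).det = 1 := by
  rw [cycMat, det_fin_three]
  simp

/-- the cyclic permutation as an element of the small group -/
noncomputable def cyc : K0 :=
  ⟨GeneralLinearGroup.mkOfDetNeZero (cycMat (F 0)) (by rw [cycMat_det]; exact one_ne_zero), by
    refine ⟨?_, cycMat_det _⟩
    change (cycMat (F 0))ᴴ * 1 * cycMat (F 0) = 1
    rw [Matrix.mul_one]
    ext i j
    fin_cases i <;> fin_cases j <;>
      simp [cycMat, Matrix.mul_apply, Fin.sum_univ_three, conjTranspose_apply]⟩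

theorem cyc_pow : cyc ^ 3 = 1 := by
  apply Subtype.ext
  apply Units.ext
  change (cycMat (F 0)) ^ 3 = 1
  rw [pow_succ, pow_two]
  ext i j
  fin_cases i <;> fin_cases j <;> simp [cycMat, Matrix.mul_apply, Fin.sum_univ_three]

/-- a diagonal matrix with non-zero entries -/
noncomputable def dg {F : Type*} [Field F] (a b c : F) (ha : a ≠ 0) (hb : b ≠ 0) (hc : c ≠ 0) :
    GL (Fin 3) F :=
  GeneralLinearGroup.mkOfDetNeZero !![a, 0, 0; 0, b, 0; 0, 0, c] (by
    rw [det_fin_three]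
    simp [ha, hb, hc])

/-- the diagonal matrices `(1, 1, ζ)` -/
noncomputable def D1 : MM := fun n => dg 1 1 (zeta n) one_ne_zero one_ne_zero (zeta_ne n)

/-- the diagonal matrices `(1, ζ, ζ)` -/
noncomputable def D2 : MM := fun n => dg 1 (zeta n) (zeta n) one_ne_zero (zeta_ne n) (zeta_ne n)

/-- the monomial matrices -/
noncomputable def rho : MM := iota cyc * D1

theorem D1_cyc_D1 : D1 * iota cyc * D1 = iota cyc * D2 := by
  funext n
  apply Units.ext
  ext i j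
  change (((D1 n).1 * (iota cyc n).1) * (D1 n).1) i j = ((iota cyc n).1 * (D2 n).1) i j
  have h0 : (iota cyc n).1 = cycMat (F n) := by
    ext i j
    rw [iota_apply]
    change jj n (cycMat (F 0) i j) = _
    fin_cases i <;> fin_cases j <;> simp [cycMat]
  have h1 : (D1 n).1 = !![1, 0, 0; 0, 1, 0; 0, 0, zeta n] := rfl
  have h2 : (D2 n).1 = !![1, 0, 0; 0, zeta n, 0; 0, 0, zeta n] := rfl
  rw [h0, h1, h2]
  fin_cases i <;> fin_cases j <;> simp [cycMat, Matrix.mul_apply, Fin.sum_univ_three]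

theorem rho_sq : rho ^ 2 = iota cyc ^ 2 * D2 := by
  rw [pow_two, pow_two]
  unfold rho
  calc iota cyc * D1 * (iota cyc * D1) = iota cyc * (D1 * iota cyc * D1) := by group
    _ = iota cyc * iota cyc * D2 := by rw [D1_cyc_D1]; group

theorem rho_cube_central (m : MM) : rho ^ 3 * m = m * rho ^ 3 := by
  have h : rho ^ 3 = fun n => dg (zeta n) (zeta n) (zeta n) (zeta_ne n) (zeta_ne n) (zeta_ne n) := by
    rw [pow_succ, rho_sq]
    funext n
    apply Units.ext
    ext i j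
    change (((iota cyc ^ 2) n).1 * (D2 n).1 * ((iota cyc n).1 * (D1 n).1)) i j = _
    have h0 : (iota cyc n).1 = cycMat (F n) := by
      ext i j
      rw [iota_apply]
      change jj n (cycMat (F 0) i j) = _
      fin_cases i <;> fin_cases j <;> simp [cycMat]
    have h00 : ((iota cyc ^ 2) n).1 = cycMat (F n) * cycMat (F n) := by
      rw [pow_two]
      change (iota cyc n).1 * (iota cyc n).1 = _
      rw [h0]
    have h1 : (D1 n).1 = !![1, 0, 0; 0, 1, 0; 0, 0, zeta n] := rfl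
    have h2 : (D2 n).1 = !![1, 0, 0; 0, zeta n, 0; 0, 0, zeta n] := rfl
    change _ = !![zeta n, 0, 0; 0, zeta n, 0; 0, 0, zeta n] i j
    rw [h00, h0, h1, h2]
    fin_cases i <;> fin_cases j <;> simp [cycMat, Matrix.mul_apply, Fin.sum_univ_three]
  rw [h]
  funext n
  apply Units.ext
  ext i j
  change (!![zeta n, 0, 0; 0, zeta n, 0; 0, 0, zeta n] * (m n).1) i j =
    ((m n).1 * !![zeta n, 0, 0; 0, zeta n, 0; 0, 0, zeta n]) i j
  fin_cases i <;> fin_cases j <;> simp [Matrix.mul_apply, Fin.sum_univ_three, mul_comm]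

theorem inv_entry {F : Type*} [Field F] [StarRing F]
    (k : SUn (1 : Matrix (Fin 3) (Fin 3) F)) (i j : Fin 3) :
    (k⁻¹).1.1 i j = star (k.1.1 j i) := by
  have h1 := k.2.1
  rw [Matrix.mul_one] at h1
  have h2 : (k.1.1)ᴴ = (k⁻¹).1.1 := by
    have h3 : k.1.1 * (k⁻¹).1.1 = 1 := k.1.mul_inv
    calc (k.1.1)ᴴ = (k.1.1)ᴴ * (k.1.1 * (k⁻¹).1.1) := by rw [h3, Matrix.mul_one]
      _ = ((k.1.1)ᴴ * k.1.1) * (k⁻¹).1.1 := by rw [Matrix.mul_assoc]
      _ = (k⁻¹).1.1 := by rw [h1, Matrix.one_mul]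
  rw [← h2]
  rfl

theorem L3_entries (k : K0) (hk : k ∈ L3) :
    k.1.1 0 2 = 0 ∧ k.1.1 1 2 = 0 ∧ k.1.1 2 0 = 0 ∧ k.1.1 2 1 = 0 := by
  have main : ∀ k : K0, k ∈ L3 → k.1.1 0 2 = 0 ∧ k.1.1 1 2 = 0 := by
    rintro k ⟨c, hc⟩
    have h1 : (![k.1.1 0 2, k.1.1 1 2, k.1.1 2 2] : Fin 3 → F 0) = c • (e₃ : V3 (F 0)) :=
      (smul_e₃ k.1).symm.trans hc
    have h2 := congrFun h1 0
    have h3 := congrFun h1 1
    have h4 : (c • (e₃ : V3 (F 0))) 0 = 0 := mul_zero (c : F 0)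
    have h5 : (c • (e₃ : V3 (F 0))) 1 = 0 := mul_zero (c : F 0)
    rw [h4] at h2
    rw [h5] at h3
    exact ⟨h2, h3⟩
  obtain ⟨h1, h2⟩ := main k hk
  obtain ⟨h3, h4⟩ := main k⁻¹ (inv_mem hk)
  rw [inv_entry, star_eq_zero] at h3 h4
  exact ⟨h1, h2, h3, h4⟩

theorem L1_entries (k : K0) (hk : k ∈ L1) :
    k.1.1 1 0 = 0 ∧ k.1.1 2 0 = 0 ∧ k.1.1 0 1 = 0 ∧ k.1.1 0 2 = 0 := by
  have main : ∀ k : K0, k ∈ L1 → k.1.1 1 0 = 0 ∧ k.1.1 2 0 = 0 := by
    rintro k ⟨c, hc⟩
    have h1 : (![k.1.1 0 0, k.1.1 1 0, k.1.1 2 0] : Fin 3 → F 0) = c • (e₁ : V3 (F 0)) :=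
      (smul_e₁ k.1).symm.trans hc
    have h2 := congrFun h1 1
    have h3 := congrFun h1 2
    have h4 : (c • (e₁ : V3 (F 0))) 1 = 0 := mul_zero (c : F 0)
    have h5 : (c • (e₁ : V3 (F 0))) 2 = 0 := mul_zero (c : F 0)
    rw [h4] at h2
    rw [h5] at h3
    exact ⟨h2, h3⟩
  obtain ⟨h1, h2⟩ := main k hk
  obtain ⟨h3, h4⟩ := main k⁻¹ (inv_mem hk)
  rw [inv_entry, star_eq_zero] at h3 h4
  exact ⟨h1, h2, h3, h4⟩

theorem commute_L3 (k : K0) (hk : k ∈ L3) : D1 * iota k = iota k * D1 := by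
  obtain ⟨h1, h2, h3, h4⟩ := L3_entries k hk
  funext n
  apply Units.ext
  ext i j
  change (!![1, 0, 0; 0, 1, 0; 0, 0, zeta n] * (iota k n).1) i j =
    ((iota k n).1 * !![1, 0, 0; 0, 1, 0; 0, 0, zeta n]) i j
  have g1 : (iota k n).1 0 2 = 0 := by rw [iota_apply, h1, map_zero]
  have g2 : (iota k n).1 1 2 = 0 := by rw [iota_apply, h2, map_zero]
  have g3 : (iota k n).1 2 0 = 0 := by rw [iota_apply, h3, map_zero]
  have g4 : (iota k n).1 2 1 = 0 := by rw [iota_apply, h4, map_zero]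
  fin_cases i <;> fin_cases j <;>
    simp [Matrix.mul_apply, Fin.sum_univ_three, mul_comm, g1, g2, g3, g4]

theorem commute_L1 (k : K0) (hk : k ∈ L1) : D2 * iota k = iota k * D2 := by
  obtain ⟨h1, h2, h3, h4⟩ := L1_entries k hk
  funext n
  apply Units.ext
  ext i j
  change (!![1, 0, 0; 0, zeta n, 0; 0, 0, zeta n] * (iota k n).1) i j =
    ((iota k n).1 * !![1, 0, 0; 0, zeta n, 0; 0, 0, zeta n]) i j
  have g1 : (iota k n).1 1 0 = 0 := by rw [iota_apply, h1, map_zero]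
  have g2 : (iota k n).1 2 0 = 0 := by rw [iota_apply, h2, map_zero]
  have g3 : (iota k n).1 0 1 = 0 := by rw [iota_apply, h3, map_zero]
  have g4 : (iota k n).1 0 2 = 0 := by rw [iota_apply, h4, map_zero]
  fin_cases i <;> fin_cases j <;>
    simp [Matrix.mul_apply, Fin.sum_univ_three, mul_comm, g1, g2, g3, g4]

theorem cyc_e₃ : cyc • (e₃ : V3 (F 0)) = e₁ := by
  refine (smul_e₃ cyc.1).trans ?_
  rfl

/-- conjugation by the cyclic permutation maps `L3` onto `L1` -/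
theorem conj_mem_iff (h : K0) : cyc * h * cyc⁻¹ ∈ L1 ↔ h ∈ L3 := by
  have e : (cyc⁻¹ : K0) • (e₁ : V3 (F 0)) = e₃ := by rw [inv_smul_eq_iff, cyc_e₃]
  constructor
  · rintro ⟨c, hc⟩
    refine ⟨c, ?_⟩
    rw [mul_smul, mul_smul, e, smul_eq_iff_eq_inv_smul] at hc
    rw [hc]
    have : (cyc⁻¹ : K0) • (c • (e₁ : V3 (F 0))) = c • ((cyc⁻¹ : K0) • e₁) :=
      gl_smul_smul (cyc⁻¹ : K0).1 (c : F 0) e₁
    rw [this, e]
  · rintro ⟨c, hc⟩
    refine ⟨c, ?_⟩
    rw [mul_smul, mul_smul, e, hc]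
    have : (cyc : K0) • (c • (e₃ : V3 (F 0))) = c • ((cyc : K0) • e₃) :=
      gl_smul_smul (cyc : K0).1 (c : F 0) e₃
    rw [this, cyc_e₃]

/-- the three embeddings -/
noncomputable def kap (i : Fin 3) : K0 →* MM := (MulAut.conj (rho ^ (i : ℕ))).toMonoidHom.comp iota

theorem kap_apply (i : Fin 3) (k : K0) : kap i k = rho ^ (i : ℕ) * iota k * (rho ^ (i : ℕ))⁻¹ := rfl

theorem kap_zero (k : K0) : kap 0 k = iota k := by
  rw [kap_apply]
  simp

theorem conj_rho_L3 (h : K0) (hh : h ∈ L3) :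
    rho * iota h * rho⁻¹ = iota (cyc * h * cyc⁻¹) := by
  unfold rho
  rw [map_mul, map_mul, map_inv]
  calc iota cyc * D1 * iota h * (iota cyc * D1)⁻¹ =
      iota cyc * (D1 * iota h) * D1⁻¹ * (iota cyc)⁻¹ := by group
    _ = iota cyc * iota h * (iota cyc)⁻¹ := by rw [commute_L3 h hh]; group

theorem conj_rho_L1 (h : K0) (hh : h ∈ L1) :
    rho ^ 2 * iota h * (rho ^ 2)⁻¹ = iota (cyc ^ 2 * h * (cyc ^ 2)⁻¹) := by
  rw [rho_sq, map_mul, map_mul, map_inv, map_pow]
  calc iota cyc ^ 2 * D2 * iota h * (iota cyc ^ 2 * D2)⁻¹ =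
      iota cyc ^ 2 * (D2 * iota h) * D2⁻¹ * (iota cyc ^ 2)⁻¹ := by group
    _ = iota cyc ^ 2 * iota h * (iota cyc ^ 2)⁻¹ := by rw [commute_L1 h hh]; group

/-- the gluing of the three copies -/
theorem kap_succ (i : Fin 3) (h : K0) (hh : h ∈ L3) :
    kap (i + 1) h = kap i (cyc * h * cyc⁻¹) := by
  fin_cases i
  · change kap 1 h = kap 0 (cyc * h * cyc⁻¹)
    rw [kap_zero, kap_apply, ← conj_rho_L3 h hh]
    simp
  · change kap 2 h = kap 1 (cyc * h * cyc⁻¹)
    rw [kap_apply, kap_apply, ← conj_rho_L3 h hh]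
    change rho ^ 2 * iota h * (rho ^ 2)⁻¹ = rho ^ 1 * (rho * iota h * rho⁻¹) * (rho ^ 1)⁻¹
    group
  · change kap 0 h = kap 2 (cyc * h * cyc⁻¹)
    rw [kap_zero, kap_apply]
    change iota h = rho ^ 2 * iota (cyc * h * cyc⁻¹) * (rho ^ 2)⁻¹
    rw [conj_rho_L1 _ ((conj_mem_iff h).2 hh)]
    congr 1
    have h3 := cyc_pow
    calc h = 1 * h * 1⁻¹ := by group
      _ = cyc ^ 3 * h * (cyc ^ 3)⁻¹ := by rw [h3]
      _ = cyc ^ 2 * (cyc * h * cyc⁻¹) * (cyc ^ 2)⁻¹ := by group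

/-- the generating set -/
noncomputable def gens : Set MM := ⋃ i : Fin 3, Set.range (kap i)

/-- **the group** -/
noncomputable def GG : Subgroup MM := Subgroup.closure gens

theorem kap_mem (i : Fin 3) (k : K0) : kap i k ∈ GG :=
  Subgroup.subset_closure (Set.mem_iUnion.2 ⟨i, k, rfl⟩)

/-- the three embeddings into the group -/
noncomputable def kg (i : Fin 3) : K0 →* GG := (kap i).codRestrict GG (kap_mem i)

theorem kg_succ (i : Fin 3) (h : K0) (hh : h ∈ L3) :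
    kg (i + 1) h = kg i (cyc * h * cyc⁻¹) := Subtype.ext (kap_succ i h hh)

theorem GG_induction {p : GG → Prop} (h1 : p 1) (hm : ∀ a b, p a → p b → p (a * b))
    (hi : ∀ a, p a → p a⁻¹) (hk : ∀ i k, p (kg i k)) (g : GG) : p g := by
  obtain ⟨g, hg⟩ := g
  induction hg using Subgroup.closure_induction with
  | mem x hx =>
    obtain ⟨i, k, rfl⟩ := Set.mem_iUnion.1 hx
    exact hk i k
  | one => exact h1
  | mul x y hx hy hx' hy' => exact hm _ _ hx' hy'
  | inv x hx hx' => exact hi _ hx'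

/-- conjugation by `rho` preserves the group -/
theorem rho_conj (g : MM) (hg : g ∈ GG) : rho * g * rho⁻¹ ∈ GG := by
  have h : GG ≤ GG.comap (MulAut.conj rho).toMonoidHom := by
    unfold GG
    rw [Subgroup.closure_le]
    intro x hx
    obtain ⟨i, k, rfl⟩ := Set.mem_iUnion.1 hx
    change rho * kap i k * rho⁻¹ ∈ GG
    rw [kap_apply]
    fin_cases i
    · change rho * (rho ^ 0 * iota k * (rho ^ 0)⁻¹) * rho⁻¹ ∈ GG
      have : rho * (rho ^ 0 * iota k * (rho ^ 0)⁻¹) * rho⁻¹ = kap 1 k := by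
        rw [kap_apply]
        change _ = rho ^ 1 * iota k * (rho ^ 1)⁻¹
        group
      rw [this]
      exact kap_mem 1 k
    · change rho * (rho ^ 1 * iota k * (rho ^ 1)⁻¹) * rho⁻¹ ∈ GG
      have : rho * (rho ^ 1 * iota k * (rho ^ 1)⁻¹) * rho⁻¹ = kap 2 k := by
        rw [kap_apply]
        change _ = rho ^ 2 * iota k * (rho ^ 2)⁻¹
        group
      rw [this]
      exact kap_mem 2 k
    · change rho * (rho ^ 2 * iota k * (rho ^ 2)⁻¹) * rho⁻¹ ∈ GG
      have : rho * (rho ^ 2 * iota k * (rho ^ 2)⁻¹) * rho⁻¹ = kap 0 k := by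
        rw [kap_zero]
        calc rho * (rho ^ 2 * iota k * (rho ^ 2)⁻¹) * rho⁻¹ =
            (rho ^ 3 * iota k) * (rho ^ 3)⁻¹ := by group
          _ = iota k := by rw [rho_cube_central]; group
      rw [this]
      exact kap_mem 0 k
  exact h hg

/-- conjugation by `D1` preserves the group -/
theorem D1_conj (g : MM) (hg : g ∈ GG) : D1 * g * D1⁻¹ ∈ GG := by
  have h1 : D1 * g * D1⁻¹ = (kap 0 cyc)⁻¹ * (rho * g * rho⁻¹) * kap 0 cyc := by
    rw [kap_zero]
    unfold rho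
    group
  rw [h1]
  exact mul_mem (mul_mem (inv_mem (kap_mem 0 cyc)) (rho_conj g hg)) (kap_mem 0 cyc)

section propT

variable {H : Type*} [NormedAddCommGroup H] [InnerProductSpace ℂ H] [CompleteSpace H]
  (σ : GG →* unitary (H →L[ℂ] H))

/-- the fixed space of the copy number `i` of `L3` -/
noncomputable def VV (i : Fin 3) : Submodule ℂ H := fixedBy (σ.comp (kg i)) (L3 : Set K0)

noncomputable instance (i : Fin 3) : (VV σ i).HasOrthogonalProjection :=
  inferInstanceAs (fixedBy (σ.comp (kg i)) (L3 : Set K0)).HasOrthogonalProjection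

theorem VV_succ (i : Fin 3) : VV σ (i + 1) = fixedBy (σ.comp (kg i)) (L1 : Set K0) := by
  ext v
  unfold VV
  rw [mem_fixedBy, mem_fixedBy]
  constructor
  · intro h g hg
    have h1 : cyc * (cyc⁻¹ * g * cyc) * cyc⁻¹ = g := by group
    have h2 : cyc⁻¹ * g * cyc ∈ L3 := by
      rw [← conj_mem_iff, h1]
      exact hg
    have h3 := h _ h2
    rw [MonoidHom.comp_apply, kg_succ i _ h2, h1] at h3
    exact h3
  · intro h g hg
    rw [MonoidHom.comp_apply, kg_succ i _ hg]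
    exact h _ ((conj_mem_iff g).2 hg)

theorem Ang.symm {U V W : Submodule ℂ H} {ε : ℝ} (h : Ang U V W ε) : Ang V U W ε := by
  intro x hx hxW y hy hyW
  rw [norm_inner_symm]
  refine (h y hy hyW x hx hxW).trans (le_of_eq ?_)
  ring

theorem ang_VV (i : Fin 3) :
    Ang (VV σ i) (VV σ (i + 1)) (fixedBy (σ.comp (kg i)) Set.univ) (5 / 19) := by
  intro x hx hxW y hy hyW
  rw [VV_succ] at hy
  exact ang25 (σ.comp (kg i)) x y hx hy hyW

theorem univ_le (i : Fin 3) : fixedBy (σ.comp (kg i)) Set.univ ≤ VV σ i :=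
  fun _ hv g _ => hv g (Set.mem_univ _)

theorem univ_le' (i : Fin 3) : fixedBy (σ.comp (kg i)) Set.univ ≤ VV σ (i + 1) := by
  rw [VV_succ]
  exact fun _ hv g _ => hv g (Set.mem_univ _)

theorem mem_of_mem (i : Fin 3) (y : H) (h1 : y ∈ VV σ i) (h2 : y ∈ VV σ (i + 1)) :
    y ∈ fixedBy (σ.comp (kg i)) Set.univ := by
  set W := fixedBy (σ.comp (kg i)) Set.univ with hW
  set z := y - W.starProjection y with hz
  have hz1 : z ∈ Wᗮ := W.sub_starProjection_mem_orthogonal y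
  have hz2 : z ∈ VV σ i := sub_mem h1 (univ_le σ i (W.starProjection_apply_mem y))
  have hz3 : z ∈ VV σ (i + 1) := sub_mem h2 (univ_le' σ i (W.starProjection_apply_mem y))
  have h := ang_VV σ i z hz2 hz1 z hz3 hz1
  have h3 : ‖⟪z, z⟫_ℂ‖ = ‖z‖ ^ 2 := by
    rw [inner_self_eq_norm_sq_to_K]
    simp
  rw [h3] at h
  have h4 : ‖z‖ = 0 := by
    by_contra hne
    have : 0 < ‖z‖ := lt_of_le_of_ne (norm_nonneg _) (Ne.symm hne)
    nlinarith
  rw [norm_eq_zero] at h4
  have h5 : y = W.starProjection y := by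
    rw [hz] at h4
    exact sub_eq_zero.1 h4
  rw [h5]
  exact W.starProjection_apply_mem y

/-- **The group has property (T).** -/
theorem propT (h : ∀ (S : Finset GG) (ε : ℝ), 0 < ε →
      ∃ v : H, ‖v‖ = 1 ∧ ∀ s ∈ S, ‖(σ s : H →L[ℂ] H) v - v‖ < ε) :
    ∃ v : H, v ≠ 0 ∧ ∀ g : GG, (σ g : H →L[ℂ] H) v = v := by
  classical
  obtain ⟨v, hv, hS⟩ := h ((Finset.univ : Finset (Fin 3 × K0)).image fun p => kg p.1 p.2)
    (1 / 20) (by norm_num)
  have hS' : ∀ i k, ‖(σ (kg i k) : H →L[ℂ] H) v - v‖ ≤ 1 / 20 := fun i k =>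
    (hS _ (Finset.mem_image.2 ⟨(i, k), Finset.mem_univ _, rfl⟩)).le
  have hd : ∀ i, ‖v - (VV σ i).starProjection v‖ ≤ 1 / 20 := by
    intro i
    -- the mean over the finite group
    set c : ℂ := ((Fintype.card L3 : ℕ) : ℂ)⁻¹ with hc
    have hcard : (Fintype.card L3 : ℂ) ≠ 0 := by
      rw [Nat.cast_ne_zero]
      exact Fintype.card_ne_zero
    set a : H := c • ∑ k : L3, (σ (kg i k.1) : H →L[ℂ] H) v with ha
    have haV : a ∈ VV σ i := by
      intro g hg
      rw [ha, map_smul, map_sum]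
      congr 1
      rw [← Equiv.sum_comp (Equiv.mulLeft (⟨g, hg⟩ : L3))
        (fun k => (σ (kg i k.1) : H →L[ℂ] H) v)]
      refine Finset.sum_congr rfl fun k _ => ?_
      rw [Equiv.coe_mulLeft]
      change ((σ (kg i g) : H →L[ℂ] H)) ((σ (kg i k.1) : H →L[ℂ] H) v) =
        (σ (kg i (g * k.1)) : H →L[ℂ] H) v
      rw [map_mul, rep_mul]
    have h1 : ‖v - (VV σ i).starProjection v‖ ≤ ‖v - a‖ := by
      rw [(VV σ i).starProjection_minimal v]
      exact ciInf_le ⟨0, by rintro _ ⟨x, rfl⟩; exact norm_nonneg _⟩ (⟨a, haV⟩ : VV σ i)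
    refine h1.trans ?_
    have h2 : v - a = c • ∑ k : L3, (v - (σ (kg i k.1) : H →L[ℂ] H) v) := by
      rw [Finset.sum_sub_distrib, smul_sub, ← ha, Finset.sum_const, Finset.card_univ,
        ← Nat.cast_smul_eq_nsmul ℂ, smul_smul, hc, inv_mul_cancel₀ hcard, one_smul]
    rw [h2, norm_smul]
    have h3 : ‖∑ k : L3, (v - (σ (kg i k.1) : H →L[ℂ] H) v)‖ ≤ Fintype.card L3 * (1 / 20) := by
      refine (norm_sum_le _ _).trans ?_
      have : ∑ k : L3, ‖v - (σ (kg i k.1) : H →L[ℂ] H) v‖ ≤ ∑ _k : L3, (1 / 20 : ℝ) := by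
        refine Finset.sum_le_sum fun k _ => ?_
        rw [norm_sub_rev]
        exact hS' i k.1
      refine this.trans (le_of_eq ?_)
      rw [Finset.sum_const, Finset.card_univ, nsmul_eq_mul]
    have h4 : ‖c‖ = (Fintype.card L3 : ℝ)⁻¹ := by
      rw [hc, norm_inv, Complex.norm_natCast]
    rw [h4]
    have h5 : (0 : ℝ) < Fintype.card L3 := by
      rw [Nat.cast_pos]
      exact Fintype.card_pos
    calc (Fintype.card L3 : ℝ)⁻¹ * ‖∑ k : L3, (v - (σ (kg i k.1) : H →L[ℂ] H) v)‖ ≤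
        (Fintype.card L3 : ℝ)⁻¹ * (Fintype.card L3 * (1 / 20)) := by gcongr
      _ = 1 / 20 := by field_simp
  have hdev : dev (VV σ) v ≤ 3 / 400 := by
    unfold dev
    have : ∑ i, ‖v - (VV σ i).starProjection v‖ ^ 2 ≤ ∑ _i : Fin 3, (1 / 20 : ℝ) ^ 2 := by
      refine Finset.sum_le_sum fun i _ => ?_
      have := hd i
      gcongr
    refine this.trans (le_of_eq ?_)
    rw [Finset.sum_const, Finset.card_univ, Fintype.card_fin]
    norm_num
  have hang : ∀ i j, i ≠ j → ∃ W : Submodule ℂ H, ∃ _ : W.HasOrthogonalProjection,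
      W ≤ VV σ i ∧ W ≤ VV σ j ∧ Ang (VV σ i) (VV σ j) W (5 / 19) := by
    have a : ∀ i : Fin 3, ∃ W : Submodule ℂ H, ∃ _ : W.HasOrthogonalProjection,
      W ≤ VV σ i ∧ W ≤ VV σ (i + 1) ∧ Ang (VV σ i) (VV σ (i + 1)) W (5 / 19) := fun i =>
      ⟨fixedBy (σ.comp (kg i)) Set.univ, inferInstance, univ_le σ i, univ_le' σ i, ang_VV σ i⟩
    have b : ∀ i : Fin 3, ∃ W : Submodule ℂ H, ∃ _ : W.HasOrthogonalProjection,
      W ≤ VV σ (i + 1) ∧ W ≤ VV σ i ∧ Ang (VV σ (i + 1)) (VV σ i) W (5 / 19) := fun i =>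
      ⟨fixedBy (σ.comp (kg i)) Set.univ, inferInstance, univ_le' σ i, univ_le σ i,
        (ang_VV σ i).symm⟩
    intro i j hij
    have hcase : j = i + 1 ∨ i = j + 1 := by
      revert i j
      decide
    rcases hcase with rfl | rfl
    · exact a i
    · exact b j
  obtain ⟨y, hy0, hy⟩ := exists_mem (VV σ) (ε := 5 / 19) (by norm_num) (by norm_num) hang v hv (by
    refine lt_of_le_of_lt hdev ?_
    have h1 : Real.sqrt (4 / 9 * ((1 + 5 / 19) / (1 - 5 / 19))) ≤ 0.88 := by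
      rw [Real.sqrt_le_left (by norm_num)]
      norm_num
    have h2 : (0.12 : ℝ) ≤ 1 - Real.sqrt (4 / 9 * ((1 + 5 / 19) / (1 - 5 / 19))) := by linarith
    calc (3 / 400 : ℝ) < 0.12 ^ 2 := by norm_num
      _ ≤ (1 - Real.sqrt (4 / 9 * ((1 + 5 / 19) / (1 - 5 / 19)))) ^ 2 := by gcongr)
  refine ⟨y, hy0, fun g => ?_⟩
  refine GG_induction (p := fun g => (σ g : H →L[ℂ] H) y = y) ?_ ?_ ?_ ?_ g
  · exact rep_one σ y
  · intro a b ha hb
    rw [rep_mul, hb, ha]
  · intro a ha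
    conv_lhs => rw [← ha]
    rw [← rep_mul, inv_mul_cancel, rep_one]
  · intro i k
    exact mem_of_mem σ i y (hy i) (hy (i + 1)) k (Set.mem_univ _)

end propT

end Pool.Agent.K4H22.T
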