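import Mathlib

/-!
# A simplicity criterion
-/

set_option autoImplicit false

namespace Pool.Agent.K4H22.T

/-- A perfect group acting faithfully and doubly transitively, generated by the conjugates of a
solvable normal subgroup of a point stabiliser, is simple. -/
theorem simple_of {Q X : Type*} [Group Q] [MulAction Q X] [FaithfulSMul Q X] [Nontrivial Q]
    (h2 : ∀ a b c d : X, a ≠ b → c ≠ d → ∃ g : Q, g • a = c ∧ g • b = d) (x : X)
    (U : Subgroup Q) (hU : ∀ u ∈ U, ∀ h : Q, h • x = x → h * u * h⁻¹ ∈ U)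
    (hsol : Group.IsSolvable U) (hgen : Subgroup.normalClosure (U : Set Q) = ⊤)
    (hperf : commutator Q = ⊤) : IsSimpleGroup Q := by
  refine ⟨fun N hN => ?_⟩
  by_cases hbot : N = ⊥
  · exact Or.inl hbot
  right
  obtain ⟨n, hn, hn1⟩ : ∃ n ∈ N, n ≠ 1 := by
    by_contra hcon
    push Not at hcon
    exact hbot (by rw [eq_bot_iff]; intro n hn; exact hcon n hn)
  obtain ⟨y, hy⟩ : ∃ y : X, n • y ≠ y := by
    by_contra hcon
    push Not at hcon
    exact hn1 (FaithfulSMul.eq_of_smul_eq_smul (α := X) fun y => by rw [hcon y, one_smul])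
  have htrans : ∀ a b : X, a ≠ b → ∃ m ∈ N, m • a = b := by
    intro a b hab
    obtain ⟨g, hg1, hg2⟩ := h2 y (n • y) a b (Ne.symm hy) hab
    refine ⟨g * n * g⁻¹, hN.conj_mem n hn g, ?_⟩
    rw [mul_smul, mul_smul, ← hg1, inv_smul_smul, hg2]
  have htrans' : ∀ a b : X, ∃ m ∈ N, m • a = b := by
    intro a b
    by_cases hab : a = b
    · exact ⟨1, N.one_mem, by rw [one_smul, hab]⟩
    · exact htrans a b hab
  have hsup : N ⊔ U = ⊤ := by
    rw [eq_top_iff, ← hgen]
    unfold Subgroup.normalClosure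
    rw [Subgroup.closure_le]
    intro z hz
    rw [Group.mem_conjugatesOfSet_iff] at hz
    obtain ⟨u, hu, hc⟩ := hz
    obtain ⟨g, rfl⟩ := isConj_iff.1 hc
    obtain ⟨m, hm, hmx⟩ := htrans' x (g • x)
    have hs : (m⁻¹ * g) • x = x := by
      rw [mul_smul, ← hmx, inv_smul_smul]
    have h1 := hU u hu (m⁻¹ * g) hs
    have h3 : g * u * g⁻¹ = m * (m⁻¹ * g * u * (m⁻¹ * g)⁻¹) * m⁻¹ := by group
    rw [h3]
    exact mul_mem (mul_mem (Subgroup.mem_sup_left hm) (Subgroup.mem_sup_right h1))
      (inv_mem (Subgroup.mem_sup_left hm))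
  -- the quotient
  have hsurj : Function.Surjective ((QuotientGroup.mk' N).comp U.subtype) := by
    intro q
    obtain ⟨g, rfl⟩ := QuotientGroup.mk'_surjective N q
    have hg : g ∈ N ⊔ U := by rw [hsup]; trivial
    rw [← SetLike.mem_coe, Subgroup.normal_mul] at hg
    obtain ⟨m, hm, u, hu, rfl⟩ := hg
    refine ⟨⟨u, hu⟩, ?_⟩
    change QuotientGroup.mk' N u = QuotientGroup.mk' N (m * u)
    rw [map_mul]
    have : QuotientGroup.mk' N m = 1 := (QuotientGroup.eq_one_iff m).2 hm
    rw [this, one_mul]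
  have hQsol : Group.IsSolvable (Q ⧸ N) := Group.isSolvable_of_surjective hsurj
  have hQperf : commutator (Q ⧸ N) = ⊤ := by
    have h3 : (commutator Q).map (QuotientGroup.mk' N) = commutator (Q ⧸ N) := by
      rw [commutator_def, commutator_def, Subgroup.map_commutator,
        Subgroup.map_top_of_surjective _ (QuotientGroup.mk'_surjective N)]
    rw [← h3, hperf, Subgroup.map_top_of_surjective _ (QuotientGroup.mk'_surjective N)]
  have htriv : Subsingleton (Q ⧸ N) := by
    by_contra hcon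
    rw [not_subsingleton_iff_nontrivial] at hcon
    exact (Group.IsSolvable.commutator_lt_top_of_nontrivial (G := Q ⧸ N)).ne hQperf
  rw [eq_top_iff]
  intro g _
  have : (QuotientGroup.mk' N) g = 1 := Subsingleton.elim _ _
  exact (QuotientGroup.eq_one_iff g).1 this

end Pool.Agent.K4H22.T
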