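import Mathlib
import Pool.Agent.K4H22.T.Unit3
import Pool.Agent.K4H22.T.Simp

/-!
# The special unitary group of the antidiagonal form
-/

set_option autoImplicit false
set_option linter.unusedSectionVars false

namespace Pool.Agent.K4H22.T

open Matrix Finset

section general

variable {F : Type*} [Field F] [StarRing F]

/-- the Gram matrix -/
def JJ (F : Type*) [Field F] : Matrix (Fin 3) (Fin 3) F := !![0, 0, 1; 0, 1, 0; 1, 0, 0]

/-- the hermitian form -/
def hf (x y : V3 F) : F := star (x 0) * y 2 + star (x 1) * y 1 + star (x 2) * y 0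

theorem hf_eq (x y : V3 F) : hf x y = star (x : Fin 3 → F) ⬝ᵥ (JJ F *ᵥ (y : Fin 3 → F)) := by
  simp [hf, JJ, dotProduct, mulVec, Fin.sum_univ_three]

theorem hf_smul (g : SUn (JJ F)) (x y : V3 F) : hf (g • x) (g • y) = hf x y := by
  rw [hf_eq, hf_eq]
  change star ((g.1 : Matrix (Fin 3) (Fin 3) F) *ᵥ (x : Fin 3 → F)) ⬝ᵥ
    (JJ F *ᵥ ((g.1 : Matrix (Fin 3) (Fin 3) F) *ᵥ (y : Fin 3 → F))) = _
  rw [star_mulVec, dotProduct_mulVec, vecMul_vecMul, dotProduct_mulVec, vecMul_vecMul, g.2.1,
    ← dotProduct_mulVec]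

theorem hf_scal (c : Fˣ) (x : V3 F) : hf (c • x) (c • x) = 0 ↔ hf x x = 0 := by
  have : hf (c • x) (c • x) = (c : F) * star (c : F) * hf x x := by
    unfold hf
    change star ((c : F) * x 0) * ((c : F) * x 2) + star ((c : F) * x 1) * ((c : F) * x 1) +
      star ((c : F) * x 2) * ((c : F) * x 0) = _
    rw [star_mul', star_mul', star_mul']
    ring
  rw [this, mul_eq_zero, or_iff_right]
  exact mul_ne_zero c.ne_zero (star_ne_zero.2 c.ne_zero)

/-- matrices with the right properties give elements of the group -/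
noncomputable def mkS (A : Matrix (Fin 3) (Fin 3) F) (h : Aᴴ * JJ F * A = JJ F) (hd : A.det = 1) :
    SUn (JJ F) :=
  ⟨GeneralLinearGroup.mkOfDetNeZero A (by rw [hd]; exact one_ne_zero), h, hd⟩

theorem mkS_val (A : Matrix (Fin 3) (Fin 3) F) (h : Aᴴ * JJ F * A = JJ F) (hd : A.det = 1) :
    (mkS A h hd).1.1 = A := rfl

theorem S_ext {g h : SUn (JJ F)} (H : g.1.1 = h.1.1) : g = h := Subtype.ext (Units.ext H)

theorem S_mul (g h : SUn (JJ F)) : (g * h).1.1 = g.1.1 * h.1.1 := rfl

/-- upper unipotent matrices -/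
def uM (a b : F) : Matrix (Fin 3) (Fin 3) F := !![1, -star a, b; 0, 1, a; 0, 0, 1]

/-- lower unipotent matrices -/
def vM (a b : F) : Matrix (Fin 3) (Fin 3) F := !![1, 0, 0; a, 1, 0; b, -star a, 1]

/-- the Weyl element -/
def wM (F : Type*) [Field F] : Matrix (Fin 3) (Fin 3) F := !![0, 0, 1; 0, -1, 0; 1, 0, 0]

/-- upper unipotent elements -/
noncomputable def uS (a b : F) (h : b + star b + a * star a = 0) : SUn (JJ F) :=
  mkS (uM a b) (by
    ext i j
    fin_cases i <;> fin_cases j <;>
      simp [uM, JJ, Matrix.mul_apply, Fin.sum_univ_three, conjTranspose_apply] <;>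
      linear_combination h) (by
    rw [uM, det_fin_three]
    simp)

/-- the Weyl element -/
noncomputable def wS : SUn (JJ F) :=
  mkS (wM F) (by
    ext i j
    fin_cases i <;> fin_cases j <;>
      simp [wM, JJ, Matrix.mul_apply, Fin.sum_univ_three, conjTranspose_apply]) (by
    rw [wM, det_fin_three]
    simp)

theorem uS_val (a b : F) (h : b + star b + a * star a = 0) : (uS a b h).1.1 = uM a b := rfl

theorem wS_val : (wS (F := F)).1.1 = wM F := rfl

theorem wS_sq : wS (F := F) * wS = 1 := by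
  apply S_ext
  rw [S_mul, wS_val]
  change _ = 1
  ext i j
  fin_cases i <;> fin_cases j <;> simp [wM, Matrix.mul_apply, Fin.sum_univ_three]

theorem wS_inv : (wS (F := F))⁻¹ = wS := inv_eq_of_mul_eq_one_left wS_sq

theorem rel_mul {a b a' b' : F} (h : b + star b + a * star a = 0)
    (h' : b' + star b' + a' * star a' = 0) :
    (b + b' - star a * a') + star (b + b' - star a * a') + (a + a') * star (a + a') = 0 := by
  rw [star_sub, star_add, star_add, star_mul', star_star]
  linear_combination h + h'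

theorem uS_mul {a b a' b' : F} (h : b + star b + a * star a = 0)
    (h' : b' + star b' + a' * star a' = 0) :
    uS a b h * uS a' b' h' = uS (a + a') (b + b' - star a * a') (rel_mul h h') := by
  apply S_ext
  rw [S_mul, uS_val, uS_val, uS_val]
  ext i j
  fin_cases i <;> fin_cases j <;>
    simp [uM, Matrix.mul_apply, Fin.sum_univ_three] <;> ring

theorem rel_inv {a b : F} (h : b + star b + a * star a = 0) :
    star b + star (star b) + (-a) * star (-a) = 0 := by
  rw [star_star, star_neg]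
  linear_combination h

theorem rel_zero : (0 : F) + star 0 + 0 * star 0 = 0 := by simp

theorem uS_zero : uS (0 : F) 0 rel_zero = 1 := by
  apply S_ext
  rw [uS_val]
  change _ = 1
  ext i j
  fin_cases i <;> fin_cases j <;> simp [uM]

theorem uS_congr {a b a' b' : F} {h : b + star b + a * star a = 0}
    {h' : b' + star b' + a' * star a' = 0} (e1 : a = a') (e2 : b = b') : uS a b h = uS a' b' h' := by
  subst e1
  subst e2
  rfl

theorem uS_inv {a b : F} (h : b + star b + a * star a = 0) :
    (uS a b h)⁻¹ = uS (-a) (star b) (rel_inv h) := by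
  rw [inv_eq_iff_mul_eq_one, uS_mul, ← uS_zero]
  apply uS_congr
  · ring
  · linear_combination h

/-- the subgroup of the upper unipotent elements -/
def UU (F : Type*) [Field F] [StarRing F] : Subgroup (SUn (JJ F)) where
  carrier := {g | ∃ a b, ∃ h : b + star b + a * star a = 0, g = uS a b h}
  mul_mem' := by
    rintro _ _ ⟨a, b, h, rfl⟩ ⟨a', b', h', rfl⟩
    exact ⟨_, _, _, uS_mul h h'⟩
  one_mem' := ⟨0, 0, rel_zero, uS_zero.symm⟩
  inv_mem' := by
    rintro _ ⟨a, b, h, rfl⟩
    exact ⟨_, _, _, uS_inv h⟩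

/-- the torus elements -/
noncomputable def hS (l : F) (hl : l ≠ 0) : SUn (JJ F) :=
  mkS !![l, 0, 0; 0, star l / l, 0; 0, 0, (star l)⁻¹] (by
    have hl' : star l ≠ 0 := star_ne_zero.2 hl
    ext i j
    fin_cases i <;> fin_cases j <;>
      simp [JJ, Matrix.mul_apply, Fin.sum_univ_three, conjTranspose_apply] <;>
      field_simp) (by
    have hl' : star l ≠ 0 := star_ne_zero.2 hl
    rw [det_fin_three]
    simp
    field_simp)

/-- the antidiagonal elements -/
theorem weyl_identity (a b : F) (hb : b ≠ 0) (h : b + star b + a * star a = 0)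
    (h1 : (1 / star b) + star (1 / star b) + (-a / b) * star (-a / b) = 0)
    (h2 : (1 / star b) + star (1 / star b) + (-a / star b) * star (-a / star b) = 0)
    (h3 : b + star b + (-a) * star (-a) = 0) :
    uS (-a / b) (1 / star b) h1 * (wS * uS (-a) b h3 * wS⁻¹) * uS (-a / star b) (1 / star b) h2 =
      wS * hS b hb := by
  have hb' : star b ≠ 0 := star_ne_zero.2 hb
  have hbb : star b = - b - a * star a := by linear_combination h
  apply S_ext
  rw [wS_inv]
  simp only [S_mul, uS_val, wS_val]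
  have hh : (hS b hb).1.1 = !![b, 0, 0; 0, star b / b, 0; 0, 0, (star b)⁻¹] := rfl
  rw [hh]
  ext i j
  fin_cases i <;> fin_cases j <;>
    simp [uM, wM, Matrix.mul_apply, Fin.sum_univ_three, star_div₀] <;>
    field_simp <;>
    first
      | linear_combination h
      | linear_combination (star a) * h
      | linear_combination (-a) * h
      | ring

/-! ### Points -/

/-- the first basis vector is isotropic -/
theorem hf_e₁ : hf (e₁ : V3 F) e₁ = 0 := by
  simp [hf, e₁]

/-- an element fixing the lines of `e₁` and `e₃` is a torus element -/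
theorem torus_of (g : SUn (JJ F)) (h1 : g.1.1 1 0 = 0) (h2 : g.1.1 2 0 = 0)
    (h3 : g.1.1 0 2 = 0) (h4 : g.1.1 1 2 = 0) : ∃ l : F, ∃ hl : l ≠ 0, g = hS l hl := by
  have hJ := g.2.1
  have hdet := g.2.2
  set A := g.1.1 with hA
  have e : ∀ i j, ((Aᴴ * JJ F) * A) i j = JJ F i j := fun i j => by rw [hJ]
  have ee : ∀ i j, star (A 0 i) * A 2 j + star (A 1 i) * A 1 j + star (A 2 i) * A 0 j =
      JJ F i j := by
    intro i j
    rw [← e i j]
    simp [JJ, Matrix.mul_apply, Fin.sum_univ_three, conjTranspose_apply]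
    ring
  have e02 := ee 0 2
  have e01 := ee 0 1
  have e21 := ee 2 1
  simp only [h1, h2, h3, h4, star_zero, zero_mul, mul_zero, add_zero, zero_add] at e02 e01 e21
  have j02 : JJ F 0 2 = 1 := rfl
  have j01 : JJ F 0 1 = 0 := rfl
  have j21 : JJ F 2 1 = 0 := rfl
  rw [j02] at e02
  rw [j01] at e01
  rw [j21] at e21
  have hl : A 0 0 ≠ 0 := by
    intro h0
    rw [h0, star_zero, zero_mul] at e02
    exact zero_ne_one e02
  have hl' : star (A 0 0) ≠ 0 := star_ne_zero.2 hl
  have hm : A 2 2 ≠ 0 := by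
    intro h0
    rw [h0, mul_zero] at e02
    exact zero_ne_one e02
  have hm' : star (A 2 2) ≠ 0 := star_ne_zero.2 hm
  have a21 : A 2 1 = 0 := by
    rcases mul_eq_zero.1 e01 with h | h
    · exact absurd h hl'
    · exact h
  have a01 : A 0 1 = 0 := by
    rcases mul_eq_zero.1 e21 with h | h
    · exact absurd h hm'
    · exact h
  have a22 : A 2 2 = (star (A 0 0))⁻¹ := by
    exact eq_inv_of_mul_eq_one_left (by rw [mul_comm]; exact e02)
  have a11 : A 1 1 = star (A 0 0) / A 0 0 := by
    rw [det_fin_three] at hdet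
    simp only [h1, h2, h3, h4, a21, a01, mul_zero, zero_mul, sub_zero, add_zero] at hdet
    rw [a22] at hdet
    rw [eq_div_iff hl]
    field_simp at hdet
    linear_combination hdet
  refine ⟨A 0 0, hl, ?_⟩
  apply S_ext
  have hh : (hS (A 0 0) hl).1.1 =
    !![A 0 0, 0, 0; 0, star (A 0 0) / A 0 0, 0; 0, 0, (star (A 0 0))⁻¹] := rfl
  rw [hh, ← hA]
  ext i j
  fin_cases i <;> fin_cases j <;> simp [h1, h2, h3, h4, a01, a21, a11, a22]

/-- reduction to the case that the line of `e₁` is fixed -/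
theorem uS_col (a b : F) (h : b + star b + a * star a = 0) (i : Fin 3) :
    (uS a b h).1.1 i 2 = (![b, a, 1] : Fin 3 → F) i := by
  rw [uS_val]
  fin_cases i <;> rfl

/-- The isotropic vectors `x` with last coordinate one. -/
theorem iso_rel (x : V3 F) (hx : hf x x = 0) (h2 : x 2 ≠ 0) :
    (x 0 / x 2) + star (x 0 / x 2) + (x 1 / x 2) * star (x 1 / x 2) = 0 := by
  have h2' : star (x 2) ≠ 0 := star_ne_zero.2 h2
  unfold hf at hx
  rw [star_div₀, star_div₀]
  field_simp
  linear_combination hx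

theorem iso_zero (x : V3 F) (hx : hf x x = 0) (h2 : x 2 = 0) : x 1 = 0 := by
  unfold hf at hx
  rw [h2, star_zero, zero_mul, mul_zero, zero_add, add_zero, mul_eq_zero, star_eq_zero, or_self]
    at hx
  exact hx

theorem uinv_mul (a b : F) (h : b + star b + a * star a = 0) (g : SUn (JJ F)) (j : Fin 3) :
    ((uS a b h)⁻¹ * g).1.1 0 j = g.1.1 0 j + star a * g.1.1 1 j + star b * g.1.1 2 j ∧
    ((uS a b h)⁻¹ * g).1.1 1 j = g.1.1 1 j - a * g.1.1 2 j ∧
    ((uS a b h)⁻¹ * g).1.1 2 j = g.1.1 2 j := by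
  rw [uS_inv, S_mul, uS_val]
  refine ⟨?_, ?_, ?_⟩
  · rw [Matrix.mul_apply, Fin.sum_univ_three]
    simp [uM]
  · rw [Matrix.mul_apply, Fin.sum_univ_three]
    simp [uM]
    ring
  · rw [Matrix.mul_apply, Fin.sum_univ_three]
    simp [uM]

theorem winv_mul (g : SUn (JJ F)) (j : Fin 3) :
    (wS⁻¹ * g).1.1 0 j = g.1.1 2 j ∧ (wS⁻¹ * g).1.1 1 j = - g.1.1 1 j ∧
    (wS⁻¹ * g).1.1 2 j = g.1.1 0 j := by
  rw [wS_inv, S_mul, wS_val]
  refine ⟨?_, ?_, ?_⟩ <;>
  · rw [Matrix.mul_apply, Fin.sum_univ_three]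
    simp [wM]

/-- **Generation**: a subgroup containing the upper unipotent elements and the Weyl element is
everything. -/
theorem gen_top (hN : ∀ c : F, star c = c → ∃ x : F, x * star x = c) (R : Subgroup (SUn (JJ F)))
    (hU : UU F ≤ R) (hw : wS ∈ R) : R = ⊤ := by
  have huR : ∀ a b (h : b + star b + a * star a = 0), uS a b h ∈ R := fun a b h =>
    hU ⟨a, b, h, rfl⟩
  -- torus
  have hT : ∀ l (hl : l ≠ 0), hS l hl ∈ R := by
    intro b hb
    obtain ⟨a, ha⟩ := hN (-(b + star b)) (by rw [star_neg, star_add, star_star, add_comm])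
    have h : b + star b + a * star a = 0 := by linear_combination ha
    have hb' : star b ≠ 0 := star_ne_zero.2 hb
    have h1 : (1 / star b) + star (1 / star b) + (-a / b) * star (-a / b) = 0 := by
      rw [star_div₀, star_div₀, star_one, star_star, star_neg]
      field_simp
      linear_combination h
    have h2 : (1 / star b) + star (1 / star b) + (-a / star b) * star (-a / star b) = 0 := by
      rw [star_div₀, star_div₀, star_one, star_star, star_neg]
      field_simp
      linear_combination h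
    have h3 : b + star b + (-a) * star (-a) = 0 := by
      rw [star_neg]
      linear_combination h
    have h4 := weyl_identity a b hb h h1 h2 h3
    have h5 : hS b hb = wS⁻¹ * (uS (-a / b) (1 / star b) h1 * (wS * uS (-a) b h3 * wS⁻¹) *
        uS (-a / star b) (1 / star b) h2) := by
      rw [h4, inv_mul_cancel_left]
    rw [h5]
    exact mul_mem (inv_mem hw) (mul_mem (mul_mem (huR _ _ _)
      (mul_mem (mul_mem hw (huR _ _ _)) (inv_mem hw))) (huR _ _ _))
  -- elements fixing the line of `e₁`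
  have hB : ∀ g : SUn (JJ F), g.1.1 1 0 = 0 → g.1.1 2 0 = 0 → g ∈ R := by
    intro g h1 h2
    -- the image of `e₃`
    set x : V3 F := g • e₃ with hx
    have hxe : x = (![g.1.1 0 2, g.1.1 1 2, g.1.1 2 2] : Fin 3 → F) := smul_e₃ g.1
    have hxi : hf x x = 0 := by
      rw [hx, hf_smul]
      simp [hf, e₃]
    have hx2 : x 2 ≠ 0 := by
      intro h0
      have h3 : hf (g • (e₁ : V3 F)) x = 1 := by
        rw [hx, hf_smul]
        simp [hf, e₁, e₃]
      have h4 : (g • (e₁ : V3 F)) = (![g.1.1 0 0, g.1.1 1 0, g.1.1 2 0] : Fin 3 → F) :=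
        smul_e₁ g.1
      unfold hf at h3
      have h5 : (g • (e₁ : V3 F)) 1 = 0 := by rw [h4]; exact h1
      have h6 : (g • (e₁ : V3 F)) 2 = 0 := by rw [h4]; exact h2
      rw [h5, h6, h0, mul_zero, star_zero, zero_mul, zero_mul, add_zero, add_zero] at h3
      exact zero_ne_one h3
    have hrel := iso_rel x hxi hx2
    set u := uS (x 1 / x 2) (x 0 / x 2) hrel with hu
    have hx0 : x 0 = g.1.1 0 2 := by rw [hxe]; rfl
    have hx1 : x 1 = g.1.1 1 2 := by rw [hxe]; rfl
    have hx22 : x 2 = g.1.1 2 2 := by rw [hxe]; rfl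
    have hg : u⁻¹ * g ∈ R := by
      obtain ⟨l, hl, hgl⟩ := torus_of (u⁻¹ * g)
        (by rw [hu, (uinv_mul _ _ hrel g 0).2.1, h1, h2, mul_zero, sub_zero])
        (by rw [hu, (uinv_mul _ _ hrel g 0).2.2, h2])
        (by
          rw [hu, (uinv_mul _ _ hrel g 2).1, ← hx0, ← hx1, ← hx22]
          have e0 : x 0 = (x 0 / x 2) * x 2 := by field_simp
          have e1 : x 1 = (x 1 / x 2) * x 2 := by field_simp
          have e : x 0 + star (x 1 / x 2) * x 1 + star (x 0 / x 2) * x 2 =
              (x 0 / x 2 + star (x 0 / x 2) + x 1 / x 2 * star (x 1 / x 2)) * x 2 := by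
            linear_combination e0 + star (x 1 / x 2) * e1
          rw [e, hrel, zero_mul])
        (by
          rw [hu, (uinv_mul _ _ hrel g 2).2.1, ← hx1, ← hx22]
          field_simp
          ring)
      rw [hgl]
      exact hT l hl
    have h7 : g = u * (u⁻¹ * g) := by group
    rw [h7]
    exact mul_mem (huR _ _ _) hg
  rw [eq_top_iff]
  intro g _
  by_cases h2 : g.1.1 2 0 = 0
  · refine hB g ?_ h2
    have h3 : hf (g • (e₁ : V3 F)) (g • e₁) = 0 := by rw [hf_smul]; exact hf_e₁
    have h4 : (g • (e₁ : V3 F)) = (![g.1.1 0 0, g.1.1 1 0, g.1.1 2 0] : Fin 3 → F) :=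
      smul_e₁ g.1
    have h5 := iso_zero _ h3 (by rw [h4]; exact h2)
    rw [h4] at h5
    exact h5
  · set x : V3 F := g • e₁ with hx
    have hxe : x = (![g.1.1 0 0, g.1.1 1 0, g.1.1 2 0] : Fin 3 → F) := smul_e₁ g.1
    have hxi : hf x x = 0 := by
      rw [hx, hf_smul]
      exact hf_e₁
    have hx0 : x 0 = g.1.1 0 0 := by rw [hxe]; rfl
    have hx1 : x 1 = g.1.1 1 0 := by rw [hxe]; rfl
    have hx22 : x 2 = g.1.1 2 0 := by rw [hxe]; rfl
    have hx2 : x 2 ≠ 0 := by rw [hx22]; exact h2
    have hrel := iso_rel x hxi hx2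
    set u := uS (x 1 / x 2) (x 0 / x 2) hrel with hu
    have hg : wS⁻¹ * (u⁻¹ * g) ∈ R := by
      apply hB
      · rw [(winv_mul _ 0).2.1, hu, (uinv_mul _ _ hrel g 0).2.1, ← hx1, ← hx22]
        field_simp
        ring
      · rw [(winv_mul _ 0).2.2, hu, (uinv_mul _ _ hrel g 0).1, ← hx0, ← hx1, ← hx22]
        have e0 : x 0 = (x 0 / x 2) * x 2 := by field_simp
        have e1 : x 1 = (x 1 / x 2) * x 2 := by field_simp
        have e : x 0 + star (x 1 / x 2) * x 1 + star (x 0 / x 2) * x 2 =
            (x 0 / x 2 + star (x 0 / x 2) + x 1 / x 2 * star (x 1 / x 2)) * x 2 := by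
          linear_combination e0 + star (x 1 / x 2) * e1
        rw [e, hrel, zero_mul]
    have h7 : g = u * (wS * (wS⁻¹ * (u⁻¹ * g))) := by group
    rw [h7]
    exact mul_mem (huR _ _ _) (mul_mem hw hg)

end general

end Pool.Agent.K4H22.T
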