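import Mathlib
import Pool.Agent.K4H22.T.JM

/-!
# The action of the special unitary group on the isotropic points
-/

set_option autoImplicit false
set_option linter.unusedSectionVars false

namespace Pool.Agent.K4H22.T

open Matrix Finset
open scoped LinearAlgebra.Projectivization commutatorElement

section general

variable {F : Type*} [Field F] [StarRing F]

instance : DistribMulAction (GL (Fin 3) F) (V3 F) where
  smul_zero _ := mulVec_zero _
  smul_add _ _ _ := mulVec_add _ _ _

instance : SMulCommClass (GL (Fin 3) F) F (V3 F) where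
  smul_comm g c x := gl_smul_smul g c x

instance : DistribMulAction (SUn (JJ F)) (V3 F) := inferInstance

instance : SMulCommClass (SUn (JJ F)) F (V3 F) := inferInstance

/-! ### Commutators -/

/-- torus element conjugation -/
theorem hS_conj (l : F) (hl : l ≠ 0) (a b : F) (h : b + star b + a * star a = 0)
    (h' : (l * star l * b) + star (l * star l * b) +
      (star l ^ 2 / l * a) * star (star l ^ 2 / l * a) = 0) :
    hS l hl * uS a b h = uS (star l ^ 2 / l * a) (l * star l * b) h' * hS l hl := by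
  have hl' : star l ≠ 0 := star_ne_zero.2 hl
  apply S_ext
  have hh : (hS l hl).1.1 =
    !![l, 0, 0; 0, star l / l, 0; 0, 0, (star l)⁻¹] := rfl
  rw [S_mul, S_mul, uS_val, uS_val, hh]
  ext i j
  fin_cases i <;> fin_cases j <;>
    simp [uM, Matrix.mul_apply, Fin.sum_univ_three, star_div₀] <;> field_simp

theorem rel_conj (l : F) (hl : l ≠ 0) (a b : F) (h : b + star b + a * star a = 0) :
    (l * star l * b) + star (l * star l * b) +
      (star l ^ 2 / l * a) * star (star l ^ 2 / l * a) = 0 := by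
  have hl' : star l ≠ 0 := star_ne_zero.2 hl
  rw [star_mul', star_mul', star_mul', star_div₀, star_pow, star_star]
  field_simp
  linear_combination (l * star l) * h

theorem UU_le_commutator (h2 : (2 : F) ≠ 0) (h3 : (3 : F) ≠ 0) :
    UU F ≤ commutator (SUn (JJ F)) := by
  have s2 : star (2 : F) = 2 := star_ofNat 2
  have s3 : star (3 : F) = 3 := star_ofNat 3
  have key : ∀ a b (h : b + star b + a * star a = 0)
      (h' : (3 * b + a * star a) + star (3 * b + a * star a) + a * star a = 0),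
      uS a (3 * b + a * star a) h' ∈ commutator (SUn (JJ F)) := by
    intro a b h h'
    have e := hS_conj 2 h2 a b h (rel_conj 2 h2 a b h)
    have e2 : hS 2 h2 * uS a b h * (hS 2 h2)⁻¹ =
        uS (star 2 ^ 2 / 2 * a) (2 * star 2 * b) (rel_conj 2 h2 a b h) := by
      rw [e]
      group
    have e3 : ⁅hS 2 h2, uS a b h⁆ = uS a (3 * b + a * star a) h' := by
      rw [commutatorElement_def, e2, uS_inv, uS_mul]
      apply uS_congr
      · rw [s2]
        field_simp
        ring
      · rw [star_mul', star_div₀, star_pow, s2, s2]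
        field_simp
        linear_combination h
    rw [← e3]
    exact Subgroup.commutator_mem_commutator (Subgroup.mem_top _) (Subgroup.mem_top _)
  have cen : ∀ c (h : c + star c + 0 * star 0 = 0), uS (0 : F) c h ∈ commutator (SUn (JJ F)) := by
    intro c h
    have hc : c / 3 + star (c / 3) + 0 * star 0 = 0 := by
      rw [star_div₀, s3]
      rw [star_zero, zero_mul, add_zero] at h ⊢
      rw [← add_div, h, zero_div]
    have h' : (3 * (c / 3) + 0 * star 0) + star (3 * (c / 3) + 0 * star 0) + 0 * star (0 : F) =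
        0 := by
      have : 3 * (c / 3) + 0 * star 0 = c := by
        rw [star_zero]
        field_simp
        ring
      rw [this]
      exact h
    have e := key 0 (c / 3) hc h'
    have e2 : uS (0 : F) c h = uS 0 (3 * (c / 3) + 0 * star 0) h' := by
      apply uS_congr rfl
      rw [star_zero]
      field_simp
      ring
    rw [e2]
    exact e
  rintro _ ⟨a, b, h, rfl⟩
  have h' : (3 * b + a * star a) + star (3 * b + a * star a) + a * star a = 0 := by
    rw [star_add, star_mul', star_mul', star_star, s3]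
    linear_combination 3 * h
  have hc : (b - (3 * b + a * star a)) + star (b - (3 * b + a * star a)) + 0 * star (0 : F) =
      0 := by
    rw [star_sub, star_zero]
    linear_combination h - h'
  have e : uS a b h = uS 0 (b - (3 * b + a * star a)) hc * uS a (3 * b + a * star a) h' := by
    rw [uS_mul]
    apply uS_congr
    · ring
    · rw [star_zero]
      ring
  rw [e]
  exact mul_mem (cen _ _) (key a b h h')

theorem hS_one : hS (1 : F) one_ne_zero = 1 := by
  apply S_ext
  have hh : (hS (1 : F) one_ne_zero).1.1 =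
    !![1, 0, 0; 0, star 1 / 1, 0; 0, 0, (star (1 : F))⁻¹] := rfl
  rw [hh]
  change _ = 1
  ext i j
  fin_cases i <;> fin_cases j <;> simp

theorem normalClosure_UU (hN : ∀ c : F, star c = c → ∃ x : F, x * star x = c) :
    Subgroup.normalClosure (UU F : Set (SUn (JJ F))) = ⊤ := by
  have hle : UU F ≤ Subgroup.normalClosure (UU F : Set (SUn (JJ F))) := Subgroup.subset_normalClosure
  apply gen_top hN _ hle
  obtain ⟨a, ha⟩ := hN (-(1 + star 1)) (by rw [star_neg, star_add, star_star, add_comm])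
  have h : (1 : F) + star 1 + a * star a = 0 := by linear_combination ha
  have h1 : (1 / star 1) + star (1 / star 1) + (-a / 1) * star (-a / 1) = (0 : F) := by
    simp only [star_one, div_one, star_neg]
    simp only [star_one] at h
    linear_combination h
  have h2 : (1 / star 1) + star (1 / star 1) + (-a / star 1) * star (-a / star 1) = (0 : F) := by
    simp only [star_one, div_one, star_neg]
    simp only [star_one] at h
    linear_combination h
  have h3 : (1 : F) + star 1 + (-a) * star (-a) = 0 := by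
    rw [star_neg]
    linear_combination h
  have h4 := weyl_identity a 1 one_ne_zero h h1 h2 h3
  rw [hS_one, mul_one] at h4
  rw [← h4]
  have hu : ∀ a b (h : b + star b + a * star a = 0),
      uS a b h ∈ Subgroup.normalClosure (UU F : Set (SUn (JJ F))) := fun a b h =>
    hle ⟨a, b, h, rfl⟩
  exact mul_mem (mul_mem (hu _ _ _) (Subgroup.normalClosure_normal.conj_mem _ (hu _ _ _) _))
    (hu _ _ _)

theorem commutator_top (hN : ∀ c : F, star c = c → ∃ x : F, x * star x = c)
    (h2 : (2 : F) ≠ 0) (h3 : (3 : F) ≠ 0) : commutator (SUn (JJ F)) = ⊤ := by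
  rw [eq_top_iff, ← normalClosure_UU hN]
  exact Subgroup.normalClosure_le_normal (UU_le_commutator h2 h3)

/-! ### Solvability -/

theorem UU_entries (g : SUn (JJ F)) (hg : g ∈ UU F) : g.1.1 1 0 = 0 ∧ g.1.1 1 1 = 1 ∧
    g.1.1 2 2 = 1 := by
  obtain ⟨a, b, h, rfl⟩ := hg
  exact ⟨rfl, rfl, rfl⟩

/-- the homomorphism to the additive group -/
noncomputable def piU (F : Type*) [Field F] [StarRing F] : UU F →* Multiplicative F where
  toFun g := Multiplicative.ofAdd (g.1.1.1 1 2)
  map_one' := rfl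
  map_mul' g h := by
    rw [← ofAdd_add]
    congr 1
    change (g.1.1.1 * h.1.1.1) 1 2 = _
    rw [Matrix.mul_apply, Fin.sum_univ_three, (UU_entries g.1 g.2).1, (UU_entries g.1 g.2).2.1,
      (UU_entries h.1 h.2).2.2]
    ring

theorem UU_solvable : Group.IsSolvable (UU F) := by
  have hk : Group.IsSolvable (piU F).ker := by
    apply Group.isSolvable_of_comm
    rintro ⟨⟨_, a, b, h, rfl⟩, hg⟩ ⟨⟨_, a', b', h', rfl⟩, hg'⟩
    have ha : a = 0 := Multiplicative.ofAdd.injective (MonoidHom.mem_ker.1 hg)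
    have ha' : a' = 0 := Multiplicative.ofAdd.injective (MonoidHom.mem_ker.1 hg')
    apply Subtype.ext
    apply Subtype.ext
    change uS a b h * uS a' b' h' = uS a' b' h' * uS a b h
    rw [uS_mul, uS_mul]
    apply uS_congr
    · ring
    · rw [ha, ha']
      ring
  exact Group.isSolvable_of_ker_le_range (piU F).ker.subtype (piU F)
    (by rw [Subgroup.range_subtype])

/-! ### Points -/

theorem e₁_ne : (e₁ : V3 F) ≠ 0 := fun h => one_ne_zero (congrFun h 0)

theorem e₃_ne : (e₃ : V3 F) ≠ 0 := fun h => one_ne_zero (congrFun h 2)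

theorem hf_e₃ : hf (e₃ : V3 F) e₃ = 0 := by simp [hf, e₃]

theorem hf_rep (v : V3 F) (hv : v ≠ 0) :
    hf (Projectivization.mk F v hv).rep (Projectivization.mk F v hv).rep = 0 ↔ hf v v = 0 := by
  obtain ⟨a, ha⟩ := Projectivization.exists_smul_eq_mk_rep F v hv
  rw [← ha]
  exact hf_scal a v

/-- the isotropic points -/
def XX (F : Type*) [Field F] [StarRing F] : Type _ := {p : ℙ F (V3 F) // hf p.rep p.rep = 0}

/-- the point spanned by an isotropic vector -/
def pt (v : V3 F) (hv : v ≠ 0) (h : hf v v = 0) : XX F :=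
  ⟨Projectivization.mk F v hv, (hf_rep v hv).2 h⟩

theorem pt_eq_iff {v w : V3 F} {hv : v ≠ 0} {hw : w ≠ 0} {h : hf v v = 0} {h' : hf w w = 0} :
    pt v hv h = pt w hw h' ↔ ∃ a : Fˣ, a • w = v := by
  exact Subtype.ext_iff.trans (Projectivization.mk_eq_mk_iff F v w hv hw)

theorem pt_surj (p : XX F) : ∃ v, ∃ hv : v ≠ 0, ∃ h : hf v v = 0, p = pt v hv h :=
  ⟨p.1.rep, p.1.rep_nonzero, p.2, Subtype.ext p.1.mk_rep.symm⟩

instance : MulAction (SUn (JJ F)) (XX F) where
  smul g p := ⟨g • p.1, by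
    have h : g • p.1 = Projectivization.mk F (g • p.1.rep)
        ((smul_ne_zero_iff_ne g).mpr p.1.rep_nonzero) := by
      conv_lhs => rw [← p.1.mk_rep]
      rfl
    rw [h, hf_rep, hf_smul]
    exact p.2⟩
  one_smul p := Subtype.ext (one_smul _ p.1)
  mul_smul g h p := Subtype.ext (mul_smul g h p.1)

theorem smul_pt (g : SUn (JJ F)) (v : V3 F) (hv : v ≠ 0) (h : hf v v = 0) :
    g • pt v hv h = pt (g • v) ((smul_ne_zero_iff_ne g).mpr hv) (by rw [hf_smul]; exact h) := rfl

/-- the point at infinity -/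
def inf (F : Type*) [Field F] [StarRing F] : XX F := pt e₁ e₁_ne hf_e₁

/-- the origin -/
def zer (F : Type*) [Field F] [StarRing F] : XX F := pt e₃ e₃_ne hf_e₃

theorem uS_smul_e₁ (a b : F) (h : b + star b + a * star a = 0) :
    uS a b h • (e₁ : V3 F) = e₁ := by
  refine (smul_e₁ (uS a b h).1).trans ?_
  rfl

theorem uS_smul_e₃ (a b : F) (h : b + star b + a * star a = 0) :
    uS a b h • (e₃ : V3 F) = (![b, a, 1] : Fin 3 → F) := by
  refine (smul_e₃ (uS a b h).1).trans ?_
  rfl

theorem UU_inf (u : SUn (JJ F)) (hu : u ∈ UU F) : u • inf F = inf F := by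
  obtain ⟨a, b, h, rfl⟩ := hu
  unfold inf
  rw [smul_pt, pt_eq_iff]
  exact ⟨1, by rw [one_smul, uS_smul_e₁]⟩

theorem wS_inf : (wS (F := F)) • inf F = zer F := by
  unfold inf zer
  rw [smul_pt, pt_eq_iff]
  refine ⟨1, ?_⟩
  rw [one_smul]
  refine ((smul_e₁ (wS (F := F)).1).trans ?_).symm
  rfl

theorem inf_ne_zer : inf F ≠ zer F := by
  unfold inf zer
  rw [Ne, pt_eq_iff]
  rintro ⟨a, ha⟩
  have h := congrFun ha 0
  have h2 : (a • (e₃ : V3 F)) 0 = 0 := mul_zero (a : F)
  rw [h2] at h
  exact zero_ne_one h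

theorem exists_UU (y : XX F) (hy : y ≠ inf F) : ∃ u ∈ UU F, u • zer F = y := by
  obtain ⟨x, hx0, hx, rfl⟩ := pt_surj y
  have h2 : x 2 ≠ 0 := by
    intro h2
    apply hy
    have h1 := iso_zero x hx h2
    have h0 : x 0 ≠ 0 := by
      intro h0
      apply hx0
      ext i
      fin_cases i
      · exact h0
      · exact h1
      · exact h2
    unfold inf
    rw [pt_eq_iff]
    refine ⟨Units.mk0 (x 0) h0, ?_⟩
    ext i
    fin_cases i
    · exact mul_one (x 0)
    · exact (mul_zero (x 0)).trans h1.symm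
    · exact (mul_zero (x 0)).trans h2.symm
  have hrel := iso_rel x hx h2
  refine ⟨uS _ _ hrel, ⟨_, _, _, rfl⟩, ?_⟩
  unfold zer
  rw [smul_pt, pt_eq_iff]
  refine ⟨(Units.mk0 (x 2) h2)⁻¹, ?_⟩
  rw [inv_smul_eq_iff, uS_smul_e₃]
  ext i
  fin_cases i
  · change x 0 = x 2 * (x 0 / x 2)
    field_simp
  · change x 1 = x 2 * (x 1 / x 2)
    field_simp
  · change x 2 = x 2 * 1
    ring

theorem UU_free (u : SUn (JJ F)) (hu : u ∈ UU F) (h : u • zer F = zer F) : u = 1 := by
  obtain ⟨a, b, hab, rfl⟩ := hu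
  unfold zer at h
  rw [smul_pt, pt_eq_iff] at h
  obtain ⟨c, hc⟩ := h
  rw [uS_smul_e₃] at hc
  have h0 := congrFun hc 0
  have h1 := congrFun hc 1
  have h00 : (c • (e₃ : V3 F)) 0 = 0 := mul_zero (c : F)
  have h11 : (c • (e₃ : V3 F)) 1 = 0 := mul_zero (c : F)
  rw [h00] at h0
  rw [h11] at h1
  rw [← uS_zero]
  exact uS_congr h1.symm h0.symm

theorem trans_inf (a : XX F) : ∃ g : SUn (JJ F), g • inf F = a := by
  by_cases h : a = inf F
  · exact ⟨1, by rw [one_smul, h]⟩
  · obtain ⟨u, -, hu⟩ := exists_UU a h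
    exact ⟨u * wS, by rw [mul_smul, wS_inf, hu]⟩

theorem two_trans (a b c d : XX F) (hab : a ≠ b) (hcd : c ≠ d) :
    ∃ g : SUn (JJ F), g • a = c ∧ g • b = d := by
  have key : ∀ a b : XX F, a ≠ b → ∃ g : SUn (JJ F), g • inf F = a ∧ g • zer F = b := by
    intro a b hab
    obtain ⟨g, hg⟩ := trans_inf a
    have h1 : g⁻¹ • b ≠ inf F := by
      intro h
      rw [inv_smul_eq_iff, hg] at h
      exact hab h.symm
    obtain ⟨u, hu, hu2⟩ := exists_UU _ h1
    refine ⟨g * u, ?_, ?_⟩
    · rw [mul_smul, UU_inf u hu, hg]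
    · rw [mul_smul, hu2, smul_inv_smul]
  obtain ⟨g, hg1, hg2⟩ := key a b hab
  obtain ⟨g', hg1', hg2'⟩ := key c d hcd
  refine ⟨g' * g⁻¹, ?_, ?_⟩
  · rw [mul_smul, ← hg1, inv_smul_smul, hg1']
  · rw [mul_smul, ← hg2, inv_smul_smul, hg2']

theorem regular (y z : XX F) (hy : y ≠ inf F) (hz : z ≠ inf F) :
    (∃ u ∈ UU F, u • y = z) ∧ ∀ u ∈ UU F, ∀ u' ∈ UU F, u • y = z → u' • y = z → u = u' := by
  obtain ⟨u₁, hu₁, hy₁⟩ := exists_UU y hy
  obtain ⟨u₂, hu₂, hz₂⟩ := exists_UU z hz
  refine ⟨⟨u₂ * u₁⁻¹, mul_mem hu₂ (inv_mem hu₁), ?_⟩, ?_⟩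
  · rw [mul_smul, ← hy₁, inv_smul_smul, hz₂]
  · intro u hu u' hu' h h'
    have h1 : u₁⁻¹ * (u⁻¹ * u') * u₁ = 1 := by
      apply UU_free _ (mul_mem (mul_mem (inv_mem hu₁) (mul_mem (inv_mem hu) hu')) hu₁)
      rw [mul_smul, mul_smul, mul_smul, hy₁, h', ← h, inv_smul_smul, ← hy₁, inv_smul_smul]
    have h2 : u⁻¹ * u' = 1 := by
      have : u⁻¹ * u' = u₁ * (u₁⁻¹ * (u⁻¹ * u') * u₁) * u₁⁻¹ := by group
      rw [this, h1]
      group
    rw [inv_mul_eq_one] at h2
    exact h2

/-- the stabiliser of the point at infinity normalises the upper unipotent group -/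
theorem UU_normal (g : SUn (JJ F)) (hg : g • inf F = inf F) (u : SUn (JJ F)) (hu : u ∈ UU F) :
    g * u * g⁻¹ ∈ UU F := by
  -- move the image of the origin back
  have hz : g • zer F ≠ inf F := by
    rw [← hg]
    intro h
    exact inf_ne_zer (MulAction.injective g h).symm
  obtain ⟨u₁, hu₁, hz₁⟩ := exists_UU _ hz
  have h1 : (u₁⁻¹ * g) • inf F = inf F := by
    rw [mul_smul, hg, inv_smul_eq_iff, UU_inf u₁ hu₁]
  have h2 : (u₁⁻¹ * g) • zer F = zer F := by
    rw [mul_smul, ← hz₁, inv_smul_smul]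
  set t := u₁⁻¹ * g with ht
  unfold inf at h1
  unfold zer at h2
  rw [smul_pt, pt_eq_iff] at h1 h2
  obtain ⟨c, hc⟩ := h1
  obtain ⟨d, hd⟩ := h2
  have hc' : c • (e₁ : V3 F) = (![t.1.1 0 0, t.1.1 1 0, t.1.1 2 0] : Fin 3 → F) :=
    hc.trans (smul_e₁ t.1)
  have hd' : d • (e₃ : V3 F) = (![t.1.1 0 2, t.1.1 1 2, t.1.1 2 2] : Fin 3 → F) :=
    hd.trans (smul_e₃ t.1)
  obtain ⟨l, hl, htl⟩ := torus_of t ((congrFun hc' 1).symm.trans (mul_zero (c : F)))
    ((congrFun hc' 2).symm.trans (mul_zero (c : F)))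
    ((congrFun hd' 0).symm.trans (mul_zero (d : F)))
    ((congrFun hd' 1).symm.trans (mul_zero (d : F)))
  have hgt : g = u₁ * hS l hl := by
    rw [← htl, ht]
    group
  obtain ⟨a, b, h, rfl⟩ := hu
  have e := hS_conj l hl a b h (rel_conj l hl a b h)
  have e2 : hS l hl * uS a b h * (hS l hl)⁻¹ = uS _ _ (rel_conj l hl a b h) := by
    rw [e]
    group
  have e3 : g * uS a b h * g⁻¹ = u₁ * (hS l hl * uS a b h * (hS l hl)⁻¹) * u₁⁻¹ := by
    rw [hgt]
    group
  rw [e3, e2]
  exact mul_mem (mul_mem hu₁ ⟨_, _, _, rfl⟩) (inv_mem hu₁)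

/-! ### The simple group -/

/-- the group of permutations of the isotropic points -/
def QQ (F : Type*) [Field F] [StarRing F] : Subgroup (Equiv.Perm (XX F)) :=
  (MulAction.toPermHom (SUn (JJ F)) (XX F)).range

/-- the homomorphism onto the permutation group -/
noncomputable def toQ (F : Type*) [Field F] [StarRing F] : SUn (JJ F) →* QQ F :=
  (MulAction.toPermHom (SUn (JJ F)) (XX F)).rangeRestrict

theorem toQ_surj : Function.Surjective (toQ F) := MonoidHom.rangeRestrict_surjective _

theorem toQ_apply (g : SUn (JJ F)) (x : XX F) : (toQ F g : Equiv.Perm (XX F)) x = g • x := rfl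

theorem exists_third (h2 : (2 : F) ≠ 0) : ∃ p : XX F, p ≠ inf F ∧ p ≠ zer F := by
  have s2 : star (2 : F) = 2 := star_ofNat 2
  have hrel : (-1 / 2 : F) + star (-1 / 2) + 1 * star 1 = 0 := by
    rw [star_div₀, star_neg, star_one, s2]
    field_simp
    norm_num
  refine ⟨uS 1 (-1 / 2) hrel • zer F, ?_, ?_⟩
  · intro h
    have h1 := UU_inf _ (⟨_, _, hrel, rfl⟩ : uS 1 (-1 / 2) hrel ∈ UU F)
    rw [← h1] at h
    exact inf_ne_zer (MulAction.injective _ h).symm
  · intro h
    have h1 := UU_free _ (⟨_, _, hrel, rfl⟩ : uS 1 (-1 / 2) hrel ∈ UU F) h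
    have h3 := congrArg (fun g : SUn (JJ F) => g.1.1 1 2) h1
    exact one_ne_zero h3

theorem QQ_simple (hN : ∀ c : F, star c = c → ∃ x : F, x * star x = c)
    (h2 : (2 : F) ≠ 0) (h3 : (3 : F) ≠ 0) : IsSimpleGroup (QQ F) := by
  have : Nontrivial (QQ F) := by
    refine ⟨⟨toQ F wS, 1, fun h => ?_⟩⟩
    have h1 := congrArg (fun g : QQ F => (g : Equiv.Perm (XX F)) (inf F)) h
    simp only [toQ_apply, wS_inf] at h1
    exact inf_ne_zer h1.symm
  refine simple_of (Q := QQ F) (X := XX F) ?_ (inf F) ((UU F).map (toQ F)) ?_ ?_ ?_ ?_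
  · intro a b c d hab hcd
    obtain ⟨g, hg1, hg2⟩ := two_trans a b c d hab hcd
    exact ⟨toQ F g, hg1, hg2⟩
  · rintro _ ⟨u, hu, rfl⟩ h hh
    obtain ⟨g, rfl⟩ := toQ_surj h
    exact ⟨g * u * g⁻¹, UU_normal g hh u hu, by rw [map_mul, map_mul, map_inv]⟩
  · have : Group.IsSolvable (UU F) := UU_solvable
    exact Group.isSolvable_of_surjective (MonoidHom.subgroupMap_surjective (toQ F) (UU F))
  · rw [Subgroup.coe_map, ← Subgroup.map_normalClosure _ (toQ F) toQ_surj, normalClosure_UU hN,
      Subgroup.map_top_of_surjective _ toQ_surj]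
  · have h : (commutator (SUn (JJ F))).map (toQ F) = commutator (QQ F) := by
      rw [commutator_def, commutator_def, Subgroup.map_commutator,
        Subgroup.map_top_of_surjective _ toQ_surj]
    rw [← h, commutator_top hN h2 h3, Subgroup.map_top_of_surjective _ toQ_surj]

end general

end Pool.Agent.K4H22.T
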