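import Mathlib
import Pool.Agent.K4H22.T.JM2
import Pool.Agent.K4H22.T.Grp

/-!
# The quotients of the group
-/

set_option autoImplicit false
set_option linter.unusedSectionVars false

namespace Pool.Agent.K4H22.T

open Matrix Finset

section general

variable {F : Type*} [Field F] [StarRing F]

/-- **Generation of the upper unipotent group** -/
theorem UU_le_of (h2 : (2 : F) ≠ 0) (ζ : F) (hζ : ∀ S : Subring F, ζ ∈ S → S = ⊤)
    (R : Subgroup (SUn (JJ F))) (b1 : F) (h1 : b1 + star b1 + 1 * star 1 = 0)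
    (h1R : uS 1 b1 h1 ∈ R)
    (hD : ∀ a b (h : b + star b + a * star a = 0), uS a b h ∈ R →
      ∃ b', ∃ h' : b' + star b' + (ζ * a) * star (ζ * a) = 0, uS (ζ * a) b' h' ∈ R) :
    UU F ≤ R := by
  have s2 : star (2 : F) = 2 := star_ofNat 2
  set P : F → Prop := fun a => ∃ b, ∃ h : b + star b + a * star a = 0, uS a b h ∈ R with hP
  have P1 : P 1 := ⟨b1, h1, h1R⟩
  have P0 : P 0 := ⟨0, rel_zero, by rw [uS_zero]; exact one_mem R⟩
  have Padd : ∀ a b, P a → P b → P (a + b) := by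
    rintro a b ⟨c, h, hR⟩ ⟨c', h', hR'⟩
    exact ⟨_, _, by rw [← uS_mul h h']; exact mul_mem hR hR'⟩
  have Pneg : ∀ a, P a → P (-a) := by
    rintro a ⟨c, h, hR⟩
    exact ⟨_, _, by rw [← uS_inv h]; exact inv_mem hR⟩
  let S : Subring F :=
    { carrier := {x | ∀ a, P a → P (x * a)}
      mul_mem' := by
        intro x y hx hy a ha
        rw [mul_assoc]
        exact hx _ (hy _ ha)
      one_mem' := by
        intro a ha
        rw [one_mul]
        exact ha
      add_mem' := by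
        intro x y hx hy a ha
        rw [add_mul]
        exact Padd _ _ (hx _ ha) (hy _ ha)
      zero_mem' := by
        intro a _
        rw [zero_mul]
        exact P0
      neg_mem' := by
        intro x hx a ha
        rw [neg_mul]
        exact Pneg _ (hx _ ha) }
  have hS : S = ⊤ := by
    apply hζ
    intro a ha
    obtain ⟨b, h, hR⟩ := ha
    exact hD a b h hR
  have Pall : ∀ x, P x := by
    intro x
    have : x ∈ S := by rw [hS]; exact Subring.mem_top x
    have h := this 1 P1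
    rw [mul_one] at h
    exact h
  have cen : ∀ c (h : c + star c + 0 * star 0 = 0), uS (0 : F) c h ∈ R := by
    intro c h
    obtain ⟨b, hb, hR⟩ := Pall (c / 2)
    rw [← mul_mem_cancel_right (mul_mem h1R hR)]
    rw [uS_mul, uS_mul]
    have e : uS (0 + (1 + c / 2)) (c + (b1 + b - star 1 * (c / 2)) - star 0 * (1 + c / 2))
        (rel_mul h (rel_mul h1 hb)) = uS (c / 2) b hb * uS 1 b1 h1 := by
      rw [uS_mul]
      apply uS_congr
      · ring
      · have hc : star c = - c := by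
          rw [star_zero, mul_zero, add_zero] at h
          linear_combination h
        rw [star_zero, star_one, star_div₀, s2, hc]
        field_simp
        ring
    rw [e]
    exact mul_mem hR h1R
  rintro _ ⟨a, b, h, rfl⟩
  obtain ⟨b', h', hR⟩ := Pall a
  have hc : (b - b') + star (b - b') + 0 * star (0 : F) = 0 := by
    rw [star_sub, star_zero]
    linear_combination h - h'
  have e : uS a b h = uS 0 (b - b') hc * uS a b' h' := by
    rw [uS_mul]
    apply uS_congr
    · ring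
    · rw [star_zero]
      ring
  rw [e]
  exact mul_mem (cen _ _) hR

/-- the base change matrix -/
def cM (F : Type*) [Field F] : Matrix (Fin 3) (Fin 3) F := !![1, 0, 3; 2, 0, 4; 0, 1, 0]

theorem cM_det : (cM F).det = 2 := by
  rw [cM, det_fin_three]
  simp
  norm_num

/-- the base change matrix -/
noncomputable def cG (h2 : (2 : F) ≠ 0) : GL (Fin 3) F :=
  GeneralLinearGroup.mkOfDetNeZero (cM F) (by rw [cM_det]; exact h2)

theorem cG_val (h2 : (2 : F) ≠ 0) : (cG h2).1 = cM F := rfl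

theorem cM_form (h5 : (5 : F) = 0) : (cM F)ᴴ * cM F = JJ F := by
  have s2 : star (2 : F) = 2 := star_ofNat 2
  have s3 : star (3 : F) = 3 := star_ofNat 3
  have s4 : star (4 : F) = 4 := star_ofNat 4
  ext i j
  fin_cases i <;> fin_cases j <;>
    simp [cM, JJ, Matrix.mul_apply, Fin.sum_univ_three, conjTranspose_apply, s2, s3, s4] <;>
    first
      | linear_combination h5
      | linear_combination 2 * h5
      | linear_combination 5 * h5

theorem toJ_mem (h2 : (2 : F) ≠ 0) (h5 : (5 : F) = 0) (g : GL (Fin 3) F)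
    (hg : g ∈ SUn (1 : Matrix (Fin 3) (Fin 3) F)) :
    (cG h2)⁻¹ * g * cG h2 ∈ SUn (JJ F) := by
  obtain ⟨h, hd⟩ := hg
  have e1 : (cM F) * ((cG h2)⁻¹ : GL (Fin 3) F).1 = 1 := (cG h2).mul_inv
  have e2 : (((cG h2)⁻¹ : GL (Fin 3) F).1)ᴴ * (cM F)ᴴ = 1 := by
    rw [← conjTranspose_mul, e1, conjTranspose_one]
  refine ⟨?_, ?_⟩
  · change (((cG h2)⁻¹ : GL (Fin 3) F).1 * g.1 * cM F)ᴴ * JJ F *
      (((cG h2)⁻¹ : GL (Fin 3) F).1 * g.1 * cM F) = JJ F
    rw [Matrix.mul_one] at h
    rw [← cM_form h5, conjTranspose_mul, conjTranspose_mul]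
    calc (cM F)ᴴ * ((g.1)ᴴ * (((cG h2)⁻¹ : GL (Fin 3) F).1)ᴴ) * ((cM F)ᴴ * cM F) *
          (((cG h2)⁻¹ : GL (Fin 3) F).1 * g.1 * cM F) =
        (cM F)ᴴ * ((g.1)ᴴ * ((((cG h2)⁻¹ : GL (Fin 3) F).1)ᴴ * (cM F)ᴴ) *
          (cM F * ((cG h2)⁻¹ : GL (Fin 3) F).1) * g.1) * cM F := by
          simp only [Matrix.mul_assoc]
      _ = (cM F)ᴴ * cM F := by
          rw [e1, e2, Matrix.mul_one, Matrix.mul_one, h, Matrix.mul_one]
  · change (((cG h2)⁻¹ : GL (Fin 3) F).1 * g.1 * cM F).det = 1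
    have e3 := congrArg Matrix.det e1
    rw [det_mul, det_one] at e3
    rw [det_mul, det_mul, hd, mul_one, mul_comm]
    exact e3

theorem ofJ_mem (h2 : (2 : F) ≠ 0) (h5 : (5 : F) = 0) (g : GL (Fin 3) F)
    (hg : g ∈ SUn (JJ F)) :
    cG h2 * g * (cG h2)⁻¹ ∈ SUn (1 : Matrix (Fin 3) (Fin 3) F) := by
  obtain ⟨h, hd⟩ := hg
  have e1 : (cM F) * ((cG h2)⁻¹ : GL (Fin 3) F).1 = 1 := (cG h2).mul_inv
  have e2 : (((cG h2)⁻¹ : GL (Fin 3) F).1)ᴴ * (cM F)ᴴ = 1 := by
    rw [← conjTranspose_mul, e1, conjTranspose_one]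
  refine ⟨?_, ?_⟩
  · change (cM F * g.1 * ((cG h2)⁻¹ : GL (Fin 3) F).1)ᴴ * 1 *
      (cM F * g.1 * ((cG h2)⁻¹ : GL (Fin 3) F).1) = 1
    rw [← cM_form h5] at h
    rw [Matrix.mul_one, conjTranspose_mul, conjTranspose_mul]
    calc (((cG h2)⁻¹ : GL (Fin 3) F).1)ᴴ * ((g.1)ᴴ * (cM F)ᴴ) *
          (cM F * g.1 * ((cG h2)⁻¹ : GL (Fin 3) F).1) =
        (((cG h2)⁻¹ : GL (Fin 3) F).1)ᴴ * ((g.1)ᴴ * ((cM F)ᴴ * cM F) * g.1) *
          ((cG h2)⁻¹ : GL (Fin 3) F).1 := by
          simp only [Matrix.mul_assoc]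
      _ = ((((cG h2)⁻¹ : GL (Fin 3) F).1)ᴴ * (cM F)ᴴ) *
          (cM F * ((cG h2)⁻¹ : GL (Fin 3) F).1) := by
          rw [h]
          simp only [Matrix.mul_assoc]
      _ = 1 := by rw [e1, e2, Matrix.mul_one]
  · change (cM F * g.1 * ((cG h2)⁻¹ : GL (Fin 3) F).1).det = 1
    have e3 := congrArg Matrix.det e1
    rw [det_mul, det_one] at e3
    rw [det_mul, det_mul, hd, mul_one]
    exact e3

end general

/-! ### The constants -/

theorem five_eq (n : ℕ) : (5 : F n) = 0 := by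
  have := CharP.cast_eq_zero (F n) 5
  exact_mod_cast this

theorem two_ne (n : ℕ) : (2 : F n) ≠ 0 := by
  intro h
  have h5 := five_eq n
  have : (1 : F n) = 0 := by linear_combination h5 - 2 * h
  exact one_ne_zero this

theorem three_ne (n : ℕ) : (3 : F n) ≠ 0 := by
  intro h
  have h5 := five_eq n
  have : (1 : F n) = 0 := by linear_combination 2 * h - h5
  exact one_ne_zero this

/-! ### The group consists of unitary matrices -/

theorem map_mem (n : ℕ) (J : Matrix (Fin 3) (Fin 3) (F 0)) (k : GL (Fin 3) (F 0))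
    (hk : k ∈ SUn J) : GeneralLinearGroup.map (jj n) k ∈ SUn (J.map (jj n)) := by
  obtain ⟨h, hd⟩ := hk
  refine ⟨?_, ?_⟩
  · change ((k.1).map (jj n))ᴴ * J.map (jj n) * (k.1).map (jj n) = J.map (jj n)
    have e : ((k.1).map (jj n))ᴴ = ((k.1)ᴴ).map (jj n) := by
      ext i j
      simp only [conjTranspose_apply, Matrix.map_apply]
      rw [jj_star]
    rw [e, ← Matrix.map_mul, ← Matrix.map_mul, h]
  · change ((k.1).map (jj n)).det = 1
    have : ((k.1).map (jj n)).det = jj n (k.1.det) := by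
      rw [RingHom.map_det]
      rfl
    rw [this, hd, map_one]

theorem iota_mem (n : ℕ) (k : K0) : iota k n ∈ SUn (1 : Matrix (Fin 3) (Fin 3) (F n)) := by
  have h := map_mem n 1 k.1 k.2
  have e : (1 : Matrix (Fin 3) (Fin 3) (F 0)).map (jj n) = 1 :=
    Matrix.map_one _ (map_zero _) (map_one _)
  rw [e] at h
  exact h

theorem conj_mem_SUn {F : Type*} [Field F] [StarRing F] (u g : GL (Fin 3) F)
    (hu : (u.1)ᴴ * u.1 = 1) (hg : g ∈ SUn (1 : Matrix (Fin 3) (Fin 3) F)) :
    u * g * u⁻¹ ∈ SUn (1 : Matrix (Fin 3) (Fin 3) F) := by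
  obtain ⟨h, hd⟩ := hg
  rw [Matrix.mul_one] at h
  have e1 : u.1 * (u⁻¹).1 = 1 := u.mul_inv
  have e2 : ((u⁻¹).1)ᴴ * (u.1)ᴴ = 1 := by
    rw [← conjTranspose_mul, e1, conjTranspose_one]
  refine ⟨?_, ?_⟩
  · change (u.1 * g.1 * (u⁻¹).1)ᴴ * 1 * (u.1 * g.1 * (u⁻¹).1) = 1
    rw [Matrix.mul_one, conjTranspose_mul, conjTranspose_mul]
    calc ((u⁻¹).1)ᴴ * ((g.1)ᴴ * (u.1)ᴴ) * (u.1 * g.1 * (u⁻¹).1) =
        ((u⁻¹).1)ᴴ * ((g.1)ᴴ * ((u.1)ᴴ * u.1) * g.1) * (u⁻¹).1 := by
          simp only [Matrix.mul_assoc]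
      _ = ((u⁻¹).1)ᴴ * ((u.1)ᴴ * u.1) * (u⁻¹).1 := by
          rw [hu, Matrix.mul_one, h]
      _ = (((u⁻¹).1)ᴴ * (u.1)ᴴ) * (u.1 * (u⁻¹).1) := by
          simp only [Matrix.mul_assoc]
      _ = 1 := by rw [e1, e2, Matrix.mul_one]
  · change (u.1 * g.1 * (u⁻¹).1).det = 1
    have e3 := congrArg Matrix.det e1
    rw [det_mul, det_one] at e3
    rw [det_mul, det_mul, hd, mul_one]
    exact e3

theorem D1_unit (n : ℕ) : ((D1 n).1)ᴴ * (D1 n).1 = 1 := by
  have h1 : (D1 n).1 = !![1, 0, 0; 0, 1, 0; 0, 0, zeta n] := rfl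
  rw [h1]
  have h2 : star (zeta n) * zeta n = 1 := by rw [mul_comm]; exact zeta_mul_star n
  ext i j
  fin_cases i <;> fin_cases j <;>
    simp [Matrix.mul_apply, Fin.sum_univ_three, conjTranspose_apply, h2]

theorem rho_conj_mem (n : ℕ) (g : GL (Fin 3) (F n))
    (hg : g ∈ SUn (1 : Matrix (Fin 3) (Fin 3) (F n))) :
    rho n * g * (rho n)⁻¹ ∈ SUn (1 : Matrix (Fin 3) (Fin 3) (F n)) := by
  have h1 : rho n * g * (rho n)⁻¹ = iota cyc n * (D1 n * g * (D1 n)⁻¹) * (iota cyc n)⁻¹ := by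
    change (iota cyc n * D1 n) * g * (iota cyc n * D1 n)⁻¹ = _
    group
  rw [h1]
  exact mul_mem (mul_mem (iota_mem n cyc) (conj_mem_SUn _ _ (D1_unit n) hg))
    (inv_mem (iota_mem n cyc))

theorem GG_unit (n : ℕ) (g : MM) (hg : g ∈ GG) :
    g n ∈ SUn (1 : Matrix (Fin 3) (Fin 3) (F n)) := by
  have h : GG ≤ (SUn (1 : Matrix (Fin 3) (Fin 3) (F n))).comap
      (Pi.evalMonoidHom (fun n : ℕ => GL (Fin 3) (F n)) n) := by
    unfold GG
    rw [Subgroup.closure_le]
    intro x hx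
    obtain ⟨i, k, rfl⟩ := Set.mem_iUnion.1 hx
    change kap i k n ∈ SUn (1 : Matrix (Fin 3) (Fin 3) (F n))
    rw [kap_apply]
    have key : ∀ j : ℕ, (rho ^ j * iota k * (rho ^ j)⁻¹) n ∈
        SUn (1 : Matrix (Fin 3) (Fin 3) (F n)) := by
      intro j
      induction j with
      | zero =>
        have : rho ^ 0 * iota k * (rho ^ 0)⁻¹ = iota k := by simp
        rw [this]
        exact iota_mem n k
      | succ j ih =>
        have : rho ^ (j + 1) * iota k * (rho ^ (j + 1))⁻¹ =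
            rho * (rho ^ j * iota k * (rho ^ j)⁻¹) * rho⁻¹ := by
          rw [pow_succ']
          group
        rw [this]
        exact rho_conj_mem n _ ih
    exact key i
  exact h hg

/-- the homomorphism to the special unitary group -/
noncomputable def ff (n : ℕ) : GG →* SUn (JJ (F n)) where
  toFun g := ⟨(cG (two_ne n))⁻¹ * g.1 n * cG (two_ne n),
    toJ_mem (two_ne n) (five_eq n) _ (GG_unit n g.1 g.2)⟩
  map_one' := by
    apply Subtype.ext
    change (cG (two_ne n))⁻¹ * 1 * cG (two_ne n) = 1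
    group
  map_mul' a b := by
    apply Subtype.ext
    change (cG (two_ne n))⁻¹ * (a.1 n * b.1 n) * cG (two_ne n) =
      ((cG (two_ne n))⁻¹ * a.1 n * cG (two_ne n)) * ((cG (two_ne n))⁻¹ * b.1 n * cG (two_ne n))
    group

theorem ff_val (n : ℕ) (g : GG) :
    (ff n g).1 = (cG (two_ne n))⁻¹ * g.1 n * cG (two_ne n) := rfl

theorem map_cG (n : ℕ) : GeneralLinearGroup.map (jj n) (cG (two_ne 0)) = cG (two_ne n) := by
  apply Units.ext
  have m2 : jj n 2 = 2 := map_ofNat (jj n) 2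
  have m3 : jj n 3 = 3 := map_ofNat (jj n) 3
  have m4 : jj n 4 = 4 := map_ofNat (jj n) 4
  change (cM (F 0)).map (jj n) = cM (F n)
  ext i j
  fin_cases i <;> fin_cases j <;> simp [cM, m2, m3, m4]

/-- the image contains the small group -/
theorem small_mem (n : ℕ) (u : SUn (JJ (F 0))) (v : SUn (JJ (F n)))
    (h : v.1 = GeneralLinearGroup.map (jj n) u.1) : v ∈ (ff n).range := by
  refine ⟨kg 0 ⟨cG (two_ne 0) * u.1 * (cG (two_ne 0))⁻¹,
    ofJ_mem (two_ne 0) (five_eq 0) _ u.2⟩, ?_⟩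
  apply Subtype.ext
  rw [ff_val]
  change (cG (two_ne n))⁻¹ * (kap 0 _) n * cG (two_ne n) = v.1
  rw [kap_zero]
  change (cG (two_ne n))⁻¹ * (GeneralLinearGroup.map (jj n)
    (cG (two_ne 0) * u.1 * (cG (two_ne 0))⁻¹)) * cG (two_ne n) = v.1
  rw [map_mul, map_mul, map_inv, map_cG, h]
  group

/-- conjugation of unipotent elements by the diagonal matrix -/
theorem D1_conj_range (n : ℕ) (a b : F n) (h : b + star b + a * star a = 0)
    (hR : uS a b h ∈ (ff n).range) :
    ∃ b', ∃ h' : b' + star b' + (zeta n * a) * star (zeta n * a) = 0,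
      uS (zeta n * a) b' h' ∈ (ff n).range := by
  have hz := zeta_mul_star n
  have h' : b + star b + (zeta n * a) * star (zeta n * a) = 0 := by
    rw [star_mul']
    linear_combination h + a * star a * hz
  refine ⟨b, h', ?_⟩
  obtain ⟨g, hg⟩ := hR
  refine ⟨⟨D1 * g.1 * D1⁻¹, D1_conj g.1 g.2⟩, ?_⟩
  apply Subtype.ext
  rw [ff_val]
  have hg' : (cG (two_ne n))⁻¹ * g.1 n * cG (two_ne n) = (uS a b h).1 := by
    rw [← ff_val, hg]
  set c := cG (two_ne n) with hc
  change c⁻¹ * (D1 n * g.1 n * (D1 n)⁻¹) * c = _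
  have e1 : c⁻¹ * (D1 n * g.1 n * (D1 n)⁻¹) * c =
      (c⁻¹ * D1 n * c) * (c⁻¹ * g.1 n * c) * (c⁻¹ * D1 n * c)⁻¹ := by group
  set d := dg 1 (zeta n) 1 one_ne_zero (zeta_ne n) one_ne_zero with hd
  have e2 : c⁻¹ * D1 n * c = d := by
    rw [mul_assoc, inv_mul_eq_iff_eq_mul]
    apply Units.ext
    change (D1 n).1 * cM (F n) = cM (F n) * d.1
    have h1 : (D1 n).1 = !![1, 0, 0; 0, 1, 0; 0, 0, zeta n] := rfl
    have h2 : d.1 = !![1, 0, 0; 0, zeta n, 0; 0, 0, 1] := rfl
    rw [h1, h2]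
    ext i j
    fin_cases i <;> fin_cases j <;>
      simp [cM, Matrix.mul_apply, Fin.sum_univ_three]
  rw [e1, e2, hg', mul_inv_eq_iff_eq_mul]
  apply Units.ext
  change d.1 * uM a b = uM (zeta n * a) b * d.1
  have h2 : d.1 = !![1, 0, 0; 0, zeta n, 0; 0, 0, 1] := rfl
  rw [h2]
  ext i j
  fin_cases i <;> fin_cases j <;>
    simp [uM, Matrix.mul_apply, Fin.sum_univ_three] <;>
    first
      | linear_combination (star a) * hz
      | linear_combination (-star a) * hz
      | ring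

/-- **Surjectivity** -/
theorem ff_surj (n : ℕ) : Function.Surjective (ff n) := by
  rw [← MonoidHom.range_eq_top]
  apply gen_top (fun c hc => norm_surj c hc)
  · have h1 : ∀ n, (2 : F n) + star 2 + 1 * star 1 = 0 := by
      intro n
      have s2 : star (2 : F n) = 2 := star_ofNat 2
      rw [s2, star_one]
      linear_combination five_eq n
    apply UU_le_of (two_ne n) (zeta n) (zeta_gen n) _ 2 (h1 n)
    · apply small_mem n (uS 1 2 (h1 0))
      apply Units.ext
      have m2 : jj n 2 = 2 := map_ofNat (jj n) 2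
      change uM 1 2 = (uM 1 2).map (jj n)
      ext i j
      fin_cases i <;> fin_cases j <;> simp [uM, m2]
    · intro a b h hR
      exact D1_conj_range n a b h hR
  · apply small_mem n wS
    apply Units.ext
    change wM (F n) = (wM (F 0)).map (jj n)
    ext i j
    fin_cases i <;> fin_cases j <;> simp [wM]

/-! ### Finiteness and cardinalities -/

instance finite_XX (n : ℕ) : Finite (XX (F n)) := by
  unfold XX
  infer_instance

instance finite_QQ (n : ℕ) : Finite (QQ (F n)) := by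
  unfold QQ
  infer_instance

theorem three_le (n : ℕ) : 3 ≤ Nat.card (XX (F n)) := by
  obtain ⟨p, hp1, hp2⟩ := exists_third (two_ne n)
  have hinj : Function.Injective (![inf (F n), zer (F n), p] : Fin 3 → XX (F n)) := by
    intro i j hij
    fin_cases i <;> fin_cases j
    · rfl
    · exact absurd hij inf_ne_zer
    · exact absurd hij.symm hp1
    · exact absurd hij.symm inf_ne_zer
    · rfl
    · exact absurd hij.symm hp2
    · exact absurd hij hp1
    · exact absurd hij hp2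
    · rfl
  have h := Nat.card_le_card_of_injective _ hinj
  rw [Nat.card_eq_fintype_card, Fintype.card_fin] at h
  exact h

theorem card_QQ (n : ℕ) : n < Nat.card (QQ (F n)) := by
  have hrel : ∀ a : F n, (-(a * star a) / 2) + star (-(a * star a) / 2) + a * star a = 0 := by
    intro a
    have s2 : star (2 : F n) = 2 := star_ofNat 2
    have h2 := two_ne n
    rw [star_div₀, star_neg, star_mul', star_star, s2]
    field_simp
    ring
  have hinj : Function.Injective (fun a : F n => toQ (F n) (uS a _ (hrel a))) := by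
    intro a b hab
    have h1 := congrArg (fun g : QQ (F n) => (g : Equiv.Perm (XX (F n))) (zer (F n))) hab
    simp only [toQ_apply] at h1
    have h2 := (regular (zer (F n)) (uS b _ (hrel b) • zer (F n)) inf_ne_zer.symm (by
      intro h
      have h3 := UU_inf _ (⟨_, _, hrel b, rfl⟩ : uS b _ (hrel b) ∈ UU (F n))
      exact inf_ne_zer (MulAction.injective _ (h3.trans h.symm)))).2 _
        ⟨_, _, hrel a, rfl⟩ _ ⟨_, _, hrel b, rfl⟩ h1 rfl
    exact congrArg (fun g : SUn (JJ (F n)) => g.1.1 1 2) h2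
  have h := Nat.card_le_card_of_injective _ hinj
  rw [natCard_F] at h
  have h2 : n < Q n := by
    unfold Q
    calc n < 2 ^ n := Nat.lt_two_pow_self
      _ ≤ 5 ^ n := Nat.pow_le_pow_left (by norm_num) n
      _ ≤ 5 ^ (2 * n + 1) := Nat.pow_le_pow_right (by norm_num) (by omega)
  have h3 := five_le_Q n
  nlinarith

end Pool.Agent.K4H22.T
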